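import Mathlib

/-!
Definitions used in the statement of `MP_0d034c_co.BipartitePlanar`.
-/

set_option autoImplicit false

namespace Helper35.BLB

open Polynomial

/-- A visibility representation of a graph `G`: the vertex `v` is represented by the vertical bar
`{x v} × [lo v, hi v]`, bars of different vertices having different abscissas; the edge `e = ab` is
represented by the horizontal segment at height `y e` from the bar of `a` to the bar of `b`
(`touch`), and this segment meets no bar of another vertex (`clear`).  Such a representation is a
drawing in the plane whose contraction along the bars is a plane drawing of `G`; conversely it is a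
standard theorem (Otten and van Wijk 1978; Duchet, Hamidoune, Las Vergnas and Meyniel 1983;
Wismath 1985; Tamassia and Tollis 1986; Rosenstiehl and Tarjan 1986) that every planar graph has
such a representation. -/
structure BarRep {V : Type} (G : SimpleGraph V) where
  /-- abscissa of the bar of a vertex -/
  x : V → ℝ
  /-- lower end of the bar -/
  lo : V → ℝ
  /-- upper end of the bar -/
  hi : V → ℝ
  /-- height of an edge -/
  y : Sym2 V → ℝ
  x_inj : Function.Injective x
  touch : ∀ a b, G.Adj a b → lo a ≤ y s(a, b) ∧ y s(a, b) ≤ hi a
  clear : ∀ a b v, G.Adj a b → x a < x v → x v < x b → y s(a, b) < lo v ∨ hi v < y s(a, b)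

/-- `p` is the chromatic polynomial of `G`: for every natural number `N` its value at `N` is the
number of proper `N`-colourings of `G`. -/
def IsChromaticPolynomial {V : Type} (G : SimpleGraph V) (p : ℝ[X]) : Prop :=
  ∀ N : ℕ, p.eval (N : ℝ) = (Nat.card (G.Coloring (Fin N)) : ℝ)

end Helper35.BLB
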