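import Pool.Agent.Helper35.BLB.Layout

/-!
Visibility representation and 2-colouring of the square grids.
-/

set_option autoImplicit false
set_option linter.unusedSectionVars false
set_option linter.unusedSimpArgs false

namespace Helper35.BLB

open Finset Polynomial SimpleGraph

theorem grid_adj {m n : ℕ} {a b : Fin m × Fin n} :
    (pathGraph m □ pathGraph n).Adj a b ↔
      (((a.1 : ℕ) + 1 = b.1 ∨ (b.1 : ℕ) + 1 = a.1) ∧ a.2 = b.2) ∨
      (((a.2 : ℕ) + 1 = b.2 ∨ (b.2 : ℕ) + 1 = a.2) ∧ a.1 = b.1) := by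
  rw [SimpleGraph.boxProd_adj, SimpleGraph.pathGraph_adj, SimpleGraph.pathGraph_adj]

/-- height of a grid edge -/
noncomputable def gy (m n : ℕ) : Sym2 (Fin m × Fin n) → ℝ :=
  Sym2.lift ⟨fun a b => ((a.2 : ℕ) : ℝ) + ((b.2 : ℕ) : ℝ) + 1, fun a b => by ring⟩

noncomputable def gridRep (m n : ℕ) : BarRep (pathGraph m □ pathGraph n) where
  x := fun a => (((a.1 : ℕ) * (n + 1) + (a.2 : ℕ) : ℕ) : ℝ)
  lo := fun a => ((2 * (a.2 : ℕ) : ℕ) : ℝ)
  hi := fun a => ((2 * (a.2 : ℕ) + 2 : ℕ) : ℝ)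
  y := gy m n
  x_inj := by
    rintro ⟨a, b⟩ ⟨c, d⟩ h
    have h0 : (((a : ℕ) * (n + 1) + (b : ℕ) : ℕ) : ℝ) =
      (((c : ℕ) * (n + 1) + (d : ℕ) : ℕ) : ℝ) := h
    have h' : (a : ℕ) * (n + 1) + (b : ℕ) = (c : ℕ) * (n + 1) + (d : ℕ) := by exact_mod_cast h0
    have hb : (b : ℕ) < n + 1 := by omega
    have hd : (d : ℕ) < n + 1 := by omega
    have h1 : (b : ℕ) = d := by
      have := congrArg (· % (n + 1)) h'
      simpa [Nat.mul_add_mod', Nat.mod_eq_of_lt hb, Nat.mod_eq_of_lt hd] using this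
    have h2 : (a : ℕ) = c := by
      have h3 : (a : ℕ) * (n + 1) = (c : ℕ) * (n + 1) := by omega
      exact Nat.eq_of_mul_eq_mul_right (by omega) h3
    ext <;> assumption
  touch := by
    intro a b h
    have e : gy m n s(a, b) = (((a.2 : ℕ) + (b.2 : ℕ) + 1 : ℕ) : ℝ) := by
      simp [gy]
    rw [e]
    rw [grid_adj] at h
    constructor
    · have : 2 * (a.2 : ℕ) ≤ (a.2 : ℕ) + (b.2 : ℕ) + 1 := by
        rcases h with ⟨_, h⟩ | ⟨h, _⟩
        · rw [h]; omega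
        · omega
      exact_mod_cast this
    · have : (a.2 : ℕ) + (b.2 : ℕ) + 1 ≤ 2 * (a.2 : ℕ) + 2 := by
        rcases h with ⟨_, h⟩ | ⟨h, _⟩
        · rw [h]; omega
        · omega
      exact_mod_cast this
  clear := by
    intro a b v h h1 h2
    have e : gy m n s(a, b) = (((a.2 : ℕ) + (b.2 : ℕ) + 1 : ℕ) : ℝ) := by
      simp [gy]
    rw [e]
    have h1' : (a.1 : ℕ) * (n + 1) + (a.2 : ℕ) < (v.1 : ℕ) * (n + 1) + (v.2 : ℕ) := by
      exact_mod_cast h1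
    have h2' : (v.1 : ℕ) * (n + 1) + (v.2 : ℕ) < (b.1 : ℕ) * (n + 1) + (b.2 : ℕ) := by
      exact_mod_cast h2
    rw [grid_adj] at h
    have ha := a.2.isLt
    have hb := b.2.isLt
    have hv := v.2.isLt
    rcases h with ⟨h | h, h3⟩ | ⟨h | h, h3⟩
    · -- row edge, b to the right
      have h4 : (a.2 : ℕ) = b.2 := by rw [h3]
      have h5 : (b.1 : ℕ) * (n + 1) = (a.1 : ℕ) * (n + 1) + (n + 1) := by rw [← h]; ring
      have h6 : (v.1 : ℕ) = a.1 ∨ (v.1 : ℕ) = a.1 + 1 := by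
        by_contra hc
        push Not at hc
        rcases lt_or_gt_of_ne hc.1 with h7 | h7
        · have : ((v.1 : ℕ) + 1) * (n + 1) ≤ (a.1 : ℕ) * (n + 1) := Nat.mul_le_mul_right _ h7
          have h8 : ((v.1 : ℕ) + 1) * (n + 1) = (v.1 : ℕ) * (n + 1) + (n + 1) := by ring
          omega
        · have h9 : (a.1 : ℕ) + 2 ≤ v.1 := by omega
          have : ((a.1 : ℕ) + 2) * (n + 1) ≤ (v.1 : ℕ) * (n + 1) := Nat.mul_le_mul_right _ h9
          have h8 : ((a.1 : ℕ) + 2) * (n + 1) = (a.1 : ℕ) * (n + 1) + 2 * (n + 1) := by ring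
          omega
      rcases h6 with h6 | h6
      · left
        have h7 : (v.1 : ℕ) * (n + 1) = (a.1 : ℕ) * (n + 1) := by rw [h6]
        have : (a.2 : ℕ) + (b.2 : ℕ) + 1 < 2 * (v.2 : ℕ) := by omega
        exact_mod_cast this
      · right
        have h7 : (v.1 : ℕ) * (n + 1) = (a.1 : ℕ) * (n + 1) + (n + 1) := by rw [h6]; ring
        have : 2 * (v.2 : ℕ) + 2 < (a.2 : ℕ) + (b.2 : ℕ) + 1 := by omega
        exact_mod_cast this
    · exfalso
      have h4 : (a.2 : ℕ) = b.2 := by rw [h3]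
      have h5 : (a.1 : ℕ) * (n + 1) = (b.1 : ℕ) * (n + 1) + (n + 1) := by rw [← h]; ring
      omega
    · exfalso
      have h5 : (a.1 : ℕ) * (n + 1) = (b.1 : ℕ) * (n + 1) := by rw [h3]
      omega
    · exfalso
      have h5 : (a.1 : ℕ) * (n + 1) = (b.1 : ℕ) * (n + 1) := by rw [h3]
      omega

theorem grid_colorable (m n : ℕ) : (pathGraph m □ pathGraph n).Colorable 2 := by
  refine ⟨SimpleGraph.Coloring.mk (fun a => (⟨((a.1 : ℕ) + (a.2 : ℕ)) % 2, by omega⟩ : Fin 2)) ?_⟩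
  intro a b h
  rw [grid_adj] at h
  intro hc
  have hc' : ((a.1 : ℕ) + (a.2 : ℕ)) % 2 = ((b.1 : ℕ) + (b.2 : ℕ)) % 2 := congrArg Fin.val hc
  rcases h with ⟨h, h3⟩ | ⟨h, h3⟩
  · have : (a.2 : ℕ) = b.2 := by rw [h3]
    omega
  · have : (a.1 : ℕ) = b.1 := by rw [h3]
    omega

/-- the real parameter of `q ≥ 4` -/
theorem exists_t {q : ℝ} (hq : 4 ≤ q) : ∃ t : ℝ, 0 < t ∧ (t + t⁻¹) ^ 2 = q := by
  have h1 : 0 ≤ q := by linarith
  have h2 : 0 ≤ q - 4 := by linarith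
  have s1 := Real.sq_sqrt h1
  have s2 := Real.sq_sqrt h2
  have p1 : 0 < Real.sqrt q := Real.sqrt_pos.2 (by linarith)
  have p2 : 0 ≤ Real.sqrt (q - 4) := Real.sqrt_nonneg _
  refine ⟨(Real.sqrt q + Real.sqrt (q - 4)) / 2, by positivity, ?_⟩
  have hinv : ((Real.sqrt q + Real.sqrt (q - 4)) / 2)⁻¹ =
      (Real.sqrt q - Real.sqrt (q - 4)) / 2 := by
    rw [inv_eq_iff_eq_inv]
    apply eq_inv_of_mul_eq_one_left
    nlinarith
  rw [hinv]
  have : (Real.sqrt q + Real.sqrt (q - 4)) / 2 + (Real.sqrt q - Real.sqrt (q - 4)) / 2 =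
      Real.sqrt q := by ring
  rw [this, s1]

end Helper35.BLB
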