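import Pool.Agent.Helper35.BLB.Match

/-!
The colouring (Potts) representation of the same surgeries.
-/

set_option autoImplicit false
set_option linter.unusedSectionVars false
set_option linter.unusedSimpArgs false

namespace Helper35.BLB

open Finset

variable {V : Type} [Fintype V] [DecidableEq V]

/-- position of a strand: every vertex has a left and a right strand -/
def spos (x : V → ℕ) (a : V × Bool) : ℕ := 2 * x a.1 + (if a.2 then 1 else 0)

theorem spos_inj {x : V → ℕ} (hx : Function.Injective x) : Function.Injective (spos x) := by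
  rintro ⟨v, b⟩ ⟨w, c⟩ h
  unfold spos at h
  cases b <;> cases c <;> simp at h ⊢
  · exact hx h
  · omega
  · omega
  · exact hx h

/-- right strands are matched with left strands -/
def RL (M : V × Bool → V × Bool) : Prop :=
  ∀ v, (M (v, true)).2 = false ∧ (M (v, false)).2 = true

def nx (M : V × Bool → V × Bool) (v : V) : V := (M (v, true)).1
def pv (M : V × Bool → V × Bool) (v : V) : V := (M (v, false)).1

section

variable {M : V × Bool → V × Bool}

theorem M_true (h : RL M) (v : V) : M (v, true) = (nx M v, false) := by
  unfold nx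
  rw [← (h v).1]

theorem M_false (h : RL M) (v : V) : M (v, false) = (pv M v, true) := by
  unfold pv
  rw [← (h v).2]

theorem nx_pv (hM : IsMatch M) (h : RL M) (v : V) : nx M (pv M v) = v := by
  have h1 := hM.inv (v, false)
  rw [M_false h, M_true h] at h1
  exact congrArg Prod.fst h1

theorem pv_nx (hM : IsMatch M) (h : RL M) (v : V) : pv M (nx M v) = v := by
  have h1 := hM.inv (v, true)
  rw [M_true h, M_false h] at h1
  exact congrArg Prod.fst h1

def nxE (hM : IsMatch M) (h : RL M) : V ≃ V where
  toFun := nx M
  invFun := pv M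
  left_inv := pv_nx hM h
  right_inv := nx_pv hM h

end

/-- edge surgery -/
def surgE (M : V × Bool → V × Bool) (e : V × V) : V × Bool → V × Bool :=
  surg M (e.1, true) (e.2, false)

/-- detaching a vertex -/
def surgD (M : V × Bool → V × Bool) (v : V) : V × Bool → V × Bool :=
  surg M (v, false) (v, true)

section

variable {M : V × Bool → V × Bool}

theorem surgE_true (h : RL M) (e : V × V) (v : V) :
    surgE M e (v, true) = if v = e.1 then (e.2, false) else
      if v = pv M e.2 then (nx M e.1, false) else M (v, true) := by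
  unfold surgE surg
  rw [M_true h e.1, M_false h e.2]
  by_cases h1 : v = e.1
  · simp [h1]
  · by_cases h2 : v = pv M e.2
    · simp [h1, h2]
    · simp [h1, h2]

theorem surgE_false (h : RL M) (e : V × V) (v : V) :
    surgE M e (v, false) = if v = e.2 then (e.1, true) else
      if v = nx M e.1 then (pv M e.2, true) else M (v, false) := by
  unfold surgE surg
  rw [M_true h e.1, M_false h e.2]
  by_cases h1 : v = e.2
  · simp [h1]
  · by_cases h2 : v = nx M e.1
    · simp [h1, h2]
    · simp [h1, h2]

theorem surgD_true (h : RL M) (v0 : V) (v : V) :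
    surgD M v0 (v, true) = if v = v0 then (v0, false) else
      if v = pv M v0 then (nx M v0, false) else M (v, true) := by
  unfold surgD surg
  rw [M_true h v0, M_false h v0]
  by_cases h1 : v = v0
  · simp [h1]
  · by_cases h2 : v = pv M v0
    · simp [h1, h2]
    · simp [h1, h2]

theorem surgD_false (h : RL M) (v0 : V) (v : V) :
    surgD M v0 (v, false) = if v = v0 then (v0, true) else
      if v = nx M v0 then (pv M v0, true) else M (v, false) := by
  unfold surgD surg
  rw [M_true h v0, M_false h v0]
  by_cases h1 : v = v0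
  · simp [h1]
  · by_cases h2 : v = nx M v0
    · simp [h1, h2]
    · simp [h1, h2]

theorem RL_surgE (h : RL M) (e : V × V) : RL (surgE M e) := by
  intro v
  rw [surgE_true h, surgE_false h, M_true h, M_false h]
  constructor <;> split_ifs <;> rfl

theorem RL_surgD (h : RL M) (v0 : V) : RL (surgD M v0) := by
  intro v
  rw [surgD_true h, surgD_false h, M_true h, M_false h]
  constructor <;> split_ifs <;> rfl

theorem nx_surgE (h : RL M) (e : V × V) (v : V) :
    nx (surgE M e) v = if v = e.1 then e.2 else if v = pv M e.2 then nx M e.1 else nx M v := by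
  unfold nx
  rw [surgE_true h]
  split_ifs <;> rfl

theorem nx_surgD (h : RL M) (v0 : V) (v : V) :
    nx (surgD M v0) v = if v = v0 then v0 else if v = pv M v0 then nx M v0 else nx M v := by
  unfold nx
  rw [surgD_true h]
  split_ifs <;> rfl

end

/-- colourings compatible with a matching -/
def PhiP {C : Type} (M : V × Bool → V × Bool) (σ : V → C) : Prop := ∀ v, σ v = σ (nx M v)

instance {C : Type} [DecidableEq C] (M : V × Bool → V × Bool) (σ : V → C) :
    Decidable (PhiP M σ) := by unfold PhiP; infer_instance

/-- following a cycle -/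
theorem cyc_eq {C : Type} [DecidableEq C] (e : V ≃ V) (I : V → Prop) [DecidablePred I]
    (hI : ∀ v, I v ↔ I (e v)) (σ : V → C) (u : V) (hu : I u)
    (h : ∀ v, I v → v ≠ u → σ v = σ (e v)) : σ u = σ (e u) := by
  have h1 : ∑ v, (if I v ∧ σ v = σ u then (1 : ℤ) else 0)
      = ∑ v, (if I v ∧ σ (e v) = σ u then (1 : ℤ) else 0) := by
    rw [← Equiv.sum_comp e]
    apply Finset.sum_congr rfl
    intro v _
    simp only [← hI v]
  have h2 : ∑ v, ((if I v ∧ σ v = σ u then (1 : ℤ) else 0) -
      (if I v ∧ σ (e v) = σ u then (1 : ℤ) else 0)) = 0 := by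
    rw [Finset.sum_sub_distrib, h1, sub_self]
  rw [Finset.sum_eq_single u] at h2
  · by_contra hne
    have : ¬ σ (e u) = σ u := fun e => hne e.symm
    simp [hu, this] at h2
  · intro v _ hv
    by_cases hIv : I v
    · rw [h v hIv hv]; simp
    · simp [hIv]
  · intro h; exact absurd (mem_univ u) h

theorem sep {x : V → ℕ} (hx : Function.Injective x) {M : V × Bool → V × Bool} (hM : IsMatch M)
    (hRL : RL M) (hNC : NC (spos x) M) {u w : V} (huw : x u < x w)
    (hP : Pres (spos x) M (u, true) (w, false)) (h : M (u, true) ≠ (w, false)) :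
    ∃ I : V → Prop, (∀ v, I v ↔ I (nx M v)) ∧ I u ∧ ¬ I w := by
  have hpos := spos_inj hx
  obtain ⟨o1, _⟩ := out_p hpos hM hP h
  have My : M (nx M u, false) = (u, true) := by
    rw [M_false hRL, pv_nx hM hRL]
  rw [M_true hRL] at o1
  simp only [spos, if_true, if_false, Bool.false_eq_true, add_zero] at o1
  have hv1 : ∀ v, M (nx M v, false) = (v, true) := fun v => by
    rw [M_false hRL, pv_nx hM hRL]
  rcases o1 with o1 | o1
  · refine ⟨fun v => x (nx M u) ≤ x v ∧ x v ≤ x u, ?_, ⟨by omega, le_refl _⟩, by
      intro hc; omega⟩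
    have key := hNC (nx M u, false)
    rw [My] at key
    intro v
    constructor
    · intro hv
      by_cases hvu : v = u
      · subst hvu; omega
      · have : x v ≠ x u := fun e => hvu (hx e)
        have k := key (v, true)
        rw [M_true hRL] at k
        simp only [spos, if_true, if_false, Bool.false_eq_true, add_zero] at k
        have := k (by omega) (by omega) (by omega)
        omega
    · intro hv
      by_cases hvu : v = u
      · subst hvu; omega
      · have h1 : nx M v ≠ nx M u := fun e => hvu ((nxE hM hRL).injective e)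
        have h2 : x (nx M v) ≠ x (nx M u) := fun e => h1 (hx e)
        have k := key (nx M v, false)
        rw [hv1] at k
        simp only [spos, if_true, if_false, Bool.false_eq_true, add_zero] at k
        have := k (by omega) (by omega) (by omega)
        omega
  · refine ⟨fun v => ¬ (x u < x v ∧ x v < x (nx M u)), ?_, by omega, by
      intro hc; apply hc; omega⟩
    have key := hNC (u, true)
    rw [M_true hRL] at key
    intro v
    apply not_congr
    constructor
    · intro hv
      have k := key (v, true)
      rw [M_true hRL] at k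
      simp only [spos, if_true, if_false, Bool.false_eq_true, add_zero] at k
      have := k (by omega) (by omega) (by omega)
      omega
    · intro hv
      have k := key (nx M v, false)
      rw [hv1] at k
      simp only [spos, if_true, if_false, Bool.false_eq_true, add_zero] at k
      have := k (by omega) (by omega) (by omega)
      omega

/-- edge surgery on colourings -/
theorem edge_iff {C : Type} [DecidableEq C] {x : V → ℕ} (hx : Function.Injective x)
    {M : V × Bool → V × Bool} (hM : IsMatch M)
    (hRL : RL M) (hNC : NC (spos x) M) {e : V × V} (huw : x e.1 < x e.2)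
    (hP : Pres (spos x) M (e.1, true) (e.2, false)) (σ : V → C) :
    PhiP (surgE M e) σ ↔ (PhiP M σ ∧ σ e.1 = σ e.2) := by
  by_cases h : M (e.1, true) = (e.2, false)
  · have : surgE M e = M := surg_closed hM h
    rw [this]
    constructor
    · intro hp
      refine ⟨hp, ?_⟩
      have := hp e.1
      have h2 : nx M e.1 = e.2 := by unfold nx; rw [h]
      rw [h2] at this
      exact this
    · intro hp; exact hp.1
  · obtain ⟨I, hI, hIu, hIw⟩ := sep hx hM hRL hNC huw hP h
    classical
    have hz : nx M (pv M e.2) = e.2 := nx_pv hM hRL _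
    have hIz : ¬ I (pv M e.2) := by rw [hI, hz]; exact hIw
    have hzu : pv M e.2 ≠ e.1 := fun e' => hIz (e' ▸ hIu)
    constructor
    · intro hp
      have hp' : ∀ v, σ v = σ (if v = e.1 then e.2 else if v = pv M e.2 then nx M e.1
          else nx M v) := fun v => by
        have := hp v
        rw [nx_surgE hRL] at this
        exact this
      have e1 : σ e.1 = σ e.2 := by have := hp' e.1; simpa using this
      have e2 : σ (pv M e.2) = σ (nx M e.1) := by
        have := hp' (pv M e.2); simpa [hzu] using this
      have e3 : ∀ v, v ≠ e.1 → v ≠ pv M e.2 → σ v = σ (nx M v) := fun v h1 h2 => by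
        have := hp' v; simpa [h1, h2] using this
      have e4 : σ e.1 = σ (nx M e.1) := by
        apply cyc_eq (nxE hM hRL) I hI σ e.1 hIu
        intro v hv hne
        exact e3 v hne (fun e' => hIz (e' ▸ hv))
      have e5 : σ (pv M e.2) = σ (nx M (pv M e.2)) := by
        apply cyc_eq (nxE hM hRL) (fun v => ¬ I v) (fun v => not_congr (hI v)) σ (pv M e.2) hIz
        intro v hv hne
        exact e3 v (fun e' => hv (e' ▸ hIu)) hne
      refine ⟨fun v => ?_, e1⟩
      by_cases h1 : v = e.1
      · rw [h1]; exact e4
      by_cases h2 : v = pv M e.2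
      · rw [h2]; exact e5
      exact e3 v h1 h2
    · rintro ⟨hp, he⟩ v
      rw [nx_surgE hRL]
      split_ifs with h1 h2
      · rw [h1]; exact he
      · rw [h2, hp (pv M e.2), hz, ← he, hp e.1]
      · exact hp v

/-- weight of a colouring -/
noncomputable def wlist {C : Type} [DecidableEq C] (vw : V × V → ℝ) (l : List (V × V)) (σ : V → C) :
    ℝ := (l.map fun e => 1 + vw e * (if σ e.1 = σ e.2 then 1 else 0)).prod

/-- the partition function of the remaining edges with the constraints of a matching -/
noncomputable def FF (C : Type) [Fintype C] [DecidableEq C] (vw : V × V → ℝ) (l : List (V × V))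
    (M : V × Bool → V × Bool) : ℝ :=
  ∑ σ : V → C, (if PhiP M σ then 1 else 0) * wlist vw l σ

theorem FF_edge (C : Type) [Fintype C] [DecidableEq C] (vw : V × V → ℝ) (l : List (V × V))
    {x : V → ℕ} (hx : Function.Injective x)
    {M : V × Bool → V × Bool} (hM : IsMatch M)
    (hRL : RL M) (hNC : NC (spos x) M) {e : V × V} (huw : x e.1 < x e.2)
    (hP : Pres (spos x) M (e.1, true) (e.2, false)) :
    FF C vw (e :: l) M = FF C vw l M + vw e * FF C vw l (surgE M e) := by
  unfold FF
  rw [Finset.mul_sum, ← Finset.sum_add_distrib]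
  apply Finset.sum_congr rfl
  intro σ _
  have := edge_iff hx hM hRL hNC huw hP σ
  unfold wlist
  rw [List.map_cons, List.prod_cons]
  by_cases h1 : PhiP M σ
  · by_cases h2 : σ e.1 = σ e.2
    · have h3 : PhiP (surgE M e) σ := this.2 ⟨h1, h2⟩
      simp [h1, h2, h3]; ring
    · have h3 : ¬ PhiP (surgE M e) σ := fun h => h2 (this.1 h).2
      simp [h1, h2, h3]
  · have h3 : ¬ PhiP (surgE M e) σ := fun h => h1 (this.1 h).1
    simp [h1, h3]

theorem sum_update (C : Type) [Fintype C] [DecidableEq C] (v : V) (H : (V → C) → ℝ) :
    ∑ σ : V → C, ∑ c : C, H (Function.update σ v c) = Fintype.card C * ∑ σ, H σ := by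
  let f : (V → C) × C → (V → C) × C := fun p => (Function.update p.1 v p.2, p.1 v)
  have hf : Function.Involutive f := by
    rintro ⟨σ, c⟩
    simp [f]
  have h1 : ∑ p : (V → C) × C, H (f p).1 = ∑ p : (V → C) × C, H p.1 :=
    Equiv.sum_comp (hf.toPerm f) (fun p => H p.1)
  rw [Fintype.sum_prod_type, Fintype.sum_prod_type] at h1
  simp only [f] at h1
  rw [h1, Finset.mul_sum]
  apply Finset.sum_congr rfl
  intro σ _
  simp

theorem wlist_update {C : Type} [DecidableEq C] (vw : V × V → ℝ) (l : List (V × V)) (v : V)
    (hv : ∀ e ∈ l, e.1 ≠ v ∧ e.2 ≠ v) (σ : V → C) (c : C) :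
    wlist vw l (Function.update σ v c) = wlist vw l σ := by
  unfold wlist
  congr 1
  apply List.map_congr_left
  intro e he
  rw [Function.update_of_ne (hv e he).1, Function.update_of_ne (hv e he).2]

theorem det_sum {C : Type} [Fintype C] [DecidableEq C] {M : V × Bool → V × Bool}
    (hM : IsMatch M) (hRL : RL M) {v : V} (h : M (v, false) ≠ (v, true)) (σ : V → C) :
    ∑ c : C, (if PhiP M (Function.update σ v c) then (1 : ℝ) else 0)
      = if PhiP (surgD M v) σ then 1 else 0 := by
  have hz : nx M (pv M v) = v := nx_pv hM hRL v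
  have hzv : pv M v ≠ v := by
    intro e
    apply h
    rw [M_false hRL, e]
  have hyv : nx M v ≠ v := by
    intro e
    apply hzv
    have := pv_nx hM hRL v
    rw [e] at this
    exact this
  have hiff : ∀ c, PhiP M (Function.update σ v c) ↔
      (PhiP (surgD M v) σ ∧ c = σ (nx M v)) := by
    intro c
    constructor
    · intro hp
      have e1 := hp v
      rw [Function.update_self, Function.update_of_ne hyv] at e1
      have e2 := hp (pv M v)
      rw [hz, Function.update_self, Function.update_of_ne hzv] at e2
      refine ⟨fun w => ?_, e1⟩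
      rw [nx_surgD hRL]
      split_ifs with h1 h2
      · rw [h1]
      · rw [h2, e2, e1]
      · have e3 := hp w
        have hwv : nx M w ≠ v := by
          intro e
          apply h2
          rw [← e, pv_nx hM hRL]
        rw [Function.update_of_ne h1, Function.update_of_ne hwv] at e3
        exact e3
    · rintro ⟨hp, hc⟩ w
      have hp' := hp w
      rw [nx_surgD hRL] at hp'
      by_cases h1 : w = v
      · subst h1
        rw [Function.update_self, Function.update_of_ne hyv]
        exact hc
      by_cases h2 : w = pv M v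
      · subst h2
        rw [hz, Function.update_self, Function.update_of_ne hzv]
        rw [if_neg h1, if_pos rfl] at hp'
        rw [hp', hc]
      have hwv : nx M w ≠ v := by
        intro e
        apply h2
        rw [← e, pv_nx hM hRL]
      rw [Function.update_of_ne h1, Function.update_of_ne hwv]
      rw [if_neg h1, if_neg h2] at hp'
      exact hp'
  by_cases h1 : PhiP (surgD M v) σ
  · simp [hiff, h1]
  · simp [hiff, h1]

theorem FF_det (C : Type) [Fintype C] [DecidableEq C] (vw : V × V → ℝ) (l : List (V × V))
    {M : V × Bool → V × Bool} (hM : IsMatch M) (hRL : RL M) {v : V}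
    (h : M (v, false) ≠ (v, true)) (hv : ∀ e ∈ l, e.1 ≠ v ∧ e.2 ≠ v) :
    FF C vw l (surgD M v) = Fintype.card C * FF C vw l M := by
  unfold FF
  rw [← sum_update C v (fun σ => (if PhiP M σ then 1 else 0) * wlist vw l σ)]
  apply Finset.sum_congr rfl
  intro σ _
  rw [← det_sum hM hRL h σ, Finset.sum_mul]
  apply Finset.sum_congr rfl
  intro c _
  rw [wlist_update vw l v hv]

theorem FF_bool_edge (vw : V × V → ℝ) {x : V → ℕ} (hx : Function.Injective x)
    {M : V × Bool → V × Bool} (hM : IsMatch M)
    (hRL : RL M) (hNC : NC (spos x) M) {e : V × V} (huw : x e.1 < x e.2)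
    (hP : Pres (spos x) M (e.1, true) (e.2, false)) (h : M (e.1, true) ≠ (e.2, false)) :
    FF Bool vw [] M = 2 * FF Bool vw [] (surgE M e) := by
  obtain ⟨I, hI, hIu, hIw⟩ := sep hx hM hRL hNC huw hP h
  classical
  let τ : (V → Bool) → (V → Bool) := fun σ v => xor (σ v) (decide (I v))
  have hτ : Function.Involutive τ := by
    intro σ; funext v; simp [τ]
  have h1 : ∑ σ : V → Bool, (if PhiP (surgE M e) (τ σ) then (1 : ℝ) else 0)
      = ∑ σ : V → Bool, (if PhiP (surgE M e) σ then (1 : ℝ) else 0) :=
    Equiv.sum_comp (hτ.toPerm τ) (fun σ => if PhiP (surgE M e) σ then (1 : ℝ) else 0)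
  unfold FF
  simp only [wlist, List.map_nil, List.prod_nil, mul_one]
  rw [two_mul]
  nth_rewrite 1 [← h1]
  rw [← Finset.sum_add_distrib]
  apply Finset.sum_congr rfl
  intro σ _
  have hphi : PhiP M (τ σ) ↔ PhiP M σ := by
    unfold PhiP
    apply forall_congr'
    intro v
    have : decide (I v) = decide (I (nx M v)) := by
      by_cases hc : I v
      · have hc' := (hI v).1 hc; simp [hc, hc']
      · have hc' : ¬ I (nx M v) := fun hh => hc ((hI v).2 hh)
        simp [hc, hc']
    simp only [τ, this]
    exact Bool.xor_left_inj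
  have t1 : τ σ e.1 = !(σ e.1) := by simp [τ, hIu]
  have t2 : τ σ e.2 = σ e.2 := by simp [τ, hIw]
  have i1 := edge_iff hx hM hRL hNC huw hP σ
  have i2 := edge_iff hx hM hRL hNC huw hP (τ σ)
  rw [t1, t2, hphi] at i2
  by_cases h3 : PhiP M σ
  · by_cases h4 : σ e.1 = σ e.2
    · have h5 : ¬ (!σ e.1) = σ e.2 := by rw [h4]; simp
      have h6 : PhiP (surgE M e) σ := i1.2 ⟨h3, h4⟩
      have h7 : ¬ PhiP (surgE M e) (τ σ) := fun hh => h5 (i2.1 hh).2
      simp [h3, h6, h7]
    · have h5 : (!σ e.1) = σ e.2 := by
        revert h4
        cases σ e.1 <;> cases σ e.2 <;> simp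
      have h6 : ¬ PhiP (surgE M e) σ := fun hh => h4 (i1.1 hh).2
      have h7 : PhiP (surgE M e) (τ σ) := i2.2 ⟨h3, h5⟩
      simp [h3, h6, h7]
  · have h6 : ¬ PhiP (surgE M e) σ := fun hh => h3 (i1.1 hh).1
    have h7 : ¬ PhiP (surgE M e) (τ σ) := fun hh => h3 (i2.1 hh).1
    simp [h3, h6, h7]

end Helper35.BLB
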