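import Pool.Agent.Helper35.BLB.TL
import Pool.Agent.Helper35.BLB.Potts

/-!
Equality of the colouring partition function and the Temperley-Lieb state sum.
-/

set_option autoImplicit false
set_option linter.unusedSectionVars false
set_option linter.unusedSimpArgs false

namespace Helper35.BLB

open Finset Polynomial

variable {V : Type} [Fintype V] [DecidableEq V]

/-- transfer along the list of edges -/
noncomputable def Wl (t : ℝ) (xw : V × V → ℝ) :
    List (V × V) → ((V × Bool → Bool) → ℝ) → ((V × Bool → Bool) → ℝ)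
  | [], f => f
  | e :: l, f => Wl t xw l (f + xw e • Uop t (e.1, true) (e.2, false) f)

def M0 : V × Bool → V × Bool := fun a => (a.1, !a.2)

noncomputable def TLv (t : ℝ) (x : V → ℕ) (xw : V × V → ℝ) (l : List (V × V))
    (M : V × Bool → V × Bool) : ℝ :=
  dot (Psi (spos x) t M0) (Wl t xw l (Psi (spos x) t M))

theorem Wl_add (t : ℝ) (xw : V × V → ℝ) (l : List (V × V)) :
    ∀ f g, Wl t xw l (f + g) = Wl t xw l f + Wl t xw l g := by
  induction l with
  | nil => intro f g; rfl
  | cons e l ih =>
    intro f g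
    simp only [Wl]
    rw [Uop_add, smul_add, ← ih]
    congr 1
    abel

theorem Wl_smul (t : ℝ) (xw : V × V → ℝ) (l : List (V × V)) :
    ∀ (c : ℝ) f, Wl t xw l (c • f) = c • Wl t xw l f := by
  induction l with
  | nil => intro c f; rfl
  | cons e l ih =>
    intro c f
    simp only [Wl]
    rw [Uop_smul, ← ih]
    congr 1
    rw [smul_add, smul_comm]

theorem dot_add (f g h : (V × Bool → Bool) → ℝ) : dot f (g + h) = dot f g + dot f h := by
  unfold dot
  rw [← Finset.sum_add_distrib]
  apply Finset.sum_congr rfl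
  intro s _
  rw [Pi.add_apply]; ring

theorem dot_smul (f g : (V × Bool → Bool) → ℝ) (c : ℝ) : dot f (c • g) = c * dot f g := by
  unfold dot
  rw [Finset.mul_sum]
  apply Finset.sum_congr rfl
  intro s _
  rw [Pi.smul_apply, smul_eq_mul]; ring

theorem isMatch_M0 : IsMatch (M0 : V × Bool → V × Bool) := by
  constructor
  · rintro ⟨v, b⟩; simp [M0]
  · rintro ⟨v, b⟩; simp [M0]

theorem RL_M0 : RL (M0 : V × Bool → V × Bool) := by
  intro v; simp [M0]

theorem NC_M0 (x : V → ℕ) : NC (spos x) M0 := by
  rintro ⟨v, b⟩ ⟨w, c⟩ h1 h2 h3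
  cases b <;> cases c <;> simp [spos, M0] at h1 h2 h3 <;> omega

theorem pres_det (x : V → ℕ) (M : V × Bool → V × Bool) (v : V) :
    Pres (spos x) M (v, false) (v, true) := by
  rintro b h1 h2
  simp only [spos, if_true, if_false, Bool.false_eq_true, add_zero] at h1 h2
  omega

theorem lt_det (x : V → ℕ) (v : V) : spos x (v, false) < spos x (v, true) := by
  simp [spos]

theorem lt_edge {x : V → ℕ} {u w : V} (h : x u < x w) :
    spos x (u, true) < spos x (w, false) := by
  simp [spos]; omega

theorem ne_det (v : V) : (v, false) ≠ (v, true) := by simp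

theorem TL_edge {t : ℝ} (ht : t ≠ 0) {x : V → ℕ} (hx : Function.Injective x) (xw : V × V → ℝ)
    (l : List (V × V)) {M : V × Bool → V × Bool} (hM : IsMatch M) (hNC : NC (spos x) M)
    {e : V × V} (huw : x e.1 < x e.2) (hP : Pres (spos x) M (e.1, true) (e.2, false)) :
    TLv t x xw (e :: l) M = TLv t x xw l M + xw e *
      (if M (e.1, true) = (e.2, false) then dl t else 1) * TLv t x xw l (surgE M e) := by
  unfold TLv
  simp only [Wl]
  have hlt := lt_edge huw
  have key : Uop t (e.1, true) (e.2, false) (Psi (spos x) t M) =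
      (if M (e.1, true) = (e.2, false) then dl t else 1) • Psi (spos x) t (surgE M e) := by
    split_ifs with h
    · have h2 : surgE M e = M := surg_closed hM h
      rw [h2, U_closed (spos x) ht hM hlt h]
      rfl
    · rw [one_smul]
      exact U_open (spos x) (spos_inj hx) ht hM hNC hlt hP h
  rw [key, Wl_add, Wl_smul, Wl_smul, dot_add, dot_smul, dot_smul]
  ring

theorem dot_Wl_det {t : ℝ} (ht : t ≠ 0) (x : V → ℕ) (xw : V × V → ℝ) (v : V)
    (l : List (V × V)) (hv : ∀ e ∈ l, e.1 ≠ v ∧ e.2 ≠ v) :
    ∀ f, dot (Psi (spos x) t M0) (Wl t xw l (Uop t (v, false) (v, true) f)) =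
      dl t * dot (Psi (spos x) t M0) (Wl t xw l f) := by
  induction l with
  | nil =>
    intro f
    simp only [Wl]
    rw [dot_Uop, U_closed (spos x) ht isMatch_M0 (lt_det x v) (by simp [M0])]
    unfold dot
    rw [Finset.mul_sum]
    apply Finset.sum_congr rfl
    intro s _
    ring
  | cons e l ih =>
    intro f
    simp only [Wl]
    have h1 := (hv e (by simp)).1
    have h2 := (hv e (by simp)).2
    rw [← ih (fun e he => hv e (by simp [he]))]
    congr 2
    rw [Uop_add, Uop_smul]
    congr 2
    apply Uop_comm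
    · intro h; exact h1 (congrArg Prod.fst h)
    · intro h; exact h1 (congrArg Prod.fst h)
    · intro h; exact h2 (congrArg Prod.fst h)
    · intro h; exact h2 (congrArg Prod.fst h)

theorem TL_det {t : ℝ} (ht : t ≠ 0) {x : V → ℕ} (hx : Function.Injective x) (xw : V × V → ℝ)
    (l : List (V × V)) {M : V × Bool → V × Bool} (hM : IsMatch M) (hNC : NC (spos x) M)
    {v : V} (h : M (v, false) ≠ (v, true)) (hv : ∀ e ∈ l, e.1 ≠ v ∧ e.2 ≠ v) :
    TLv t x xw l (surgD M v) = dl t * TLv t x xw l M := by
  unfold TLv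
  rw [← dot_Wl_det ht x xw v l hv, U_open (spos x) (spos_inj hx) ht hM hNC (lt_det x v)
    (pres_det x M v) h]
  rfl

/-- Laurent polynomial functions -/
def LP (g : ℝ → ℝ) : Prop := ∃ (h : ℝ[X]) (r : ℕ), ∀ y, 0 < y → g y * y ^ r = h.eval y

theorem LP_add {g1 g2 : ℝ → ℝ} (h1 : LP g1) (h2 : LP g2) : LP (fun y => g1 y + g2 y) := by
  obtain ⟨p1, r1, h1⟩ := h1
  obtain ⟨p2, r2, h2⟩ := h2
  refine ⟨p1 * X ^ r2 + p2 * X ^ r1, r1 + r2, fun y hy => ?_⟩
  simp only [eval_add, eval_mul, eval_pow, eval_X]
  rw [← h1 y hy, ← h2 y hy]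
  ring

theorem LP_smul {g : ℝ → ℝ} (c : ℝ) (h : LP g) : LP (fun y => c * g y) := by
  obtain ⟨p, r, h⟩ := h
  refine ⟨C c * p, r, fun y hy => ?_⟩
  simp only [eval_mul, eval_C]
  rw [← h y hy]
  ring

theorem LP_div {g : ℝ → ℝ} (h : LP g) : LP (fun y => g y / y) := by
  obtain ⟨p, r, h⟩ := h
  refine ⟨p, r + 1, fun y hy => ?_⟩
  rw [← h y hy]
  field_simp
  ring

theorem LP_pow (n : ℕ) : LP (fun y => y ^ n) := by
  refine ⟨X ^ n, 0, fun y _ => ?_⟩
  simp

def Good (t : ℝ) (x : V → ℕ) (vw : V × V → ℝ) (l : List (V × V)) (M : V × Bool → V × Bool) :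
    Prop :=
  ∃ (g : ℝ → ℝ) (o : ℤ), LP g ∧ (∀ N : ℕ, 1 ≤ N → FF (Fin N) vw l M = g N) ∧
    FF Bool vw [] M = 2 ^ o ∧
    TLv t x (fun e => vw e / dl t) l M = t ^ Fintype.card V * (dl t) ^ (-o) * g ((dl t) ^ 2)

theorem nx_M0 (v : V) : nx (M0 : V × Bool → V × Bool) v = v := by simp [nx, M0]

theorem FF_nil_M0 (C : Type) [Fintype C] [DecidableEq C] (vw : V × V → ℝ) :
    FF C vw [] M0 = (Fintype.card C : ℝ) ^ Fintype.card V := by
  unfold FF
  have h1 : ∀ σ : V → C, PhiP M0 σ := fun σ v => by rw [nx_M0]
  simp only [h1, if_true, wlist, List.map_nil, List.prod_nil, mul_one, Finset.sum_const,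
    Finset.card_univ, Fintype.card_fun, nsmul_eq_mul, Nat.cast_pow]

theorem Psi_M0 (t : ℝ) (x : V → ℕ) (s : V × Bool → Bool) :
    Psi (spos x) t M0 s = ∏ v, (if s (v, true) = s (v, false) then 0 else
      if s (v, false) = true then t else 1) := by
  unfold Psi
  rw [Fintype.prod_prod_type]
  apply Finset.prod_congr rfl
  intro v _
  rw [Fintype.prod_bool]
  have h1 : ¬ spos x (v, true) < spos x (v, false) := by simp [spos]
  have h2 : spos x (v, false) < spos x (v, true) := lt_det x v
  simp only [fac, M0, Bool.not_true, Bool.not_false, h1, h2, true_and, false_and, if_false]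
  by_cases h : s (v, false) = s (v, true)
  · simp [h]
  · have h' : ¬ s (v, true) = s (v, false) := fun e => h e.symm
    simp [h, h']

theorem dot_M0 {t : ℝ} (ht : t ≠ 0) (x : V → ℕ) :
    dot (Psi (spos x) t M0) (Psi (spos x) t M0) = t ^ Fintype.card V * dl t ^ Fintype.card V := by
  have h1 : dot (Psi (spos x) t M0) (Psi (spos x) t M0) = ∑ s : V × Bool → Bool,
      ∏ v, ((if s (v, true) = s (v, false) then 0 else
      if s (v, false) = true then t else 1) ^ 2) := by
    unfold dot
    apply Finset.sum_congr rfl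
    intro s _
    rw [Psi_M0, ← sq, Finset.prod_pow]
  rw [h1]
  let H : (Bool → Bool) → ℝ := fun c => (if c true = c false then 0 else
      if c false = true then t else 1) ^ 2
  have h2 : ∑ s : V × Bool → Bool, ∏ v, ((if s (v, true) = s (v, false) then 0 else
      if s (v, false) = true then t else 1) ^ 2) = ∑ p : V → (Bool → Bool), ∏ v, H (p v) := by
    rw [← Equiv.sum_comp (Equiv.curry V Bool Bool)]
    rfl
  rw [h2]
  have h3 := Finset.prod_univ_sum (fun _ : V => (Finset.univ : Finset (Bool → Bool)))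
    (fun _ c => H c)
  rw [Fintype.piFinset_univ] at h3
  rw [← h3, Finset.prod_const, Finset.card_univ, ← mul_pow]
  congr 1
  have h4 : ∑ c : Bool → Bool, H c = ∑ p : Bool × Bool, H (fun b => if b then p.1 else p.2) := by
    symm
    apply Fintype.sum_bijective (fun p : Bool × Bool => (fun b : Bool => if b then p.1 else p.2))
    · constructor
      · rintro ⟨a, b⟩ ⟨c, d⟩ h
        have e1 := congrFun h true
        have e2 := congrFun h false
        simp at e1 e2
        rw [e1, e2]
      · intro c
        refine ⟨(c true, c false), ?_⟩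
        funext b
        cases b <;> simp
    · intro p; rfl
  rw [h4, Fintype.sum_prod_type, Fintype.sum_bool, Fintype.sum_bool, Fintype.sum_bool]
  simp only [H, dl]
  simp
  field_simp
  ring

theorem good_nil {t : ℝ} (ht : 0 < t) (x : V → ℕ) (vw : V × V → ℝ) : Good t x vw [] M0 := by
  have hd : dl t ≠ 0 := by
    have : 0 < dl t := by unfold dl; positivity
    exact ne_of_gt this
  refine ⟨fun y => y ^ Fintype.card V, Fintype.card V, LP_pow _, ?_, ?_, ?_⟩
  · intro N _
    rw [FF_nil_M0, Fintype.card_fin]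
  · rw [FF_nil_M0]
    simp
  · unfold TLv
    simp only [Wl]
    rw [dot_M0 (ne_of_gt ht), zpow_neg, zpow_natCast]
    field_simp
    ring

theorem good_edge {t : ℝ} (ht : 0 < t) {x : V → ℕ} (hx : Function.Injective x) (vw : V × V → ℝ)
    (l : List (V × V)) {M : V × Bool → V × Bool} (hM : IsMatch M) (hRL : RL M)
    (hNC : NC (spos x) M)
    {e : V × V} (huw : x e.1 < x e.2) (hP : Pres (spos x) M (e.1, true) (e.2, false))
    (g1 : Good t x vw l M) (g2 : Good t x vw l (surgE M e)) : Good t x vw (e :: l) M := by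
  have hd : dl t ≠ 0 := by
    have : 0 < dl t := by unfold dl; positivity
    exact ne_of_gt this
  obtain ⟨g, o, a1, a2, a3, a4⟩ := g1
  obtain ⟨g', o', b1, b2, b3, b4⟩ := g2
  by_cases h : M (e.1, true) = (e.2, false)
  · have hs : surgE M e = M := surg_closed hM h
    refine ⟨fun y => g y + vw e * g y, o, LP_add a1 (LP_smul _ a1), ?_, a3, ?_⟩
    · intro N hN
      rw [FF_edge (Fin N) vw l hx hM hRL hNC huw hP, hs, a2 N hN]
    · rw [TL_edge (ne_of_gt ht) hx _ l hM hNC huw hP, if_pos h, hs, a4]
      field_simp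
  · refine ⟨fun y => g y + vw e * g' y, o, LP_add a1 (LP_smul _ b1), ?_, a3, ?_⟩
    · intro N hN
      rw [FF_edge (Fin N) vw l hx hM hRL hNC huw hP, a2 N hN, b2 N hN]
    · have h5 := FF_bool_edge vw hx hM hRL hNC huw hP h
      rw [a3, b3] at h5
      have h6 : o = o' + 1 := by
        have h7 : (2 : ℝ) ^ o = 2 ^ (o' + 1) := by
          rw [h5, zpow_add₀ (by norm_num)]
          ring
        exact zpow_right_injective₀ (by norm_num) (by norm_num) h7
      rw [TL_edge (ne_of_gt ht) hx _ l hM hNC huw hP, if_neg h, a4, b4, h6, neg_add,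
        zpow_add₀ hd, zpow_neg_one]
      field_simp

theorem good_det {t : ℝ} (ht : 0 < t) {x : V → ℕ} (hx : Function.Injective x) (vw : V × V → ℝ)
    (l : List (V × V)) {M : V × Bool → V × Bool} (hM : IsMatch M) (hRL : RL M)
    (hNC : NC (spos x) M) {v : V} (hv : ∀ e ∈ l, e.1 ≠ v ∧ e.2 ≠ v)
    (g2 : Good t x vw l (surgD M v)) : Good t x vw l M := by
  have hd : dl t ≠ 0 := by
    have : 0 < dl t := by unfold dl; positivity
    exact ne_of_gt this
  by_cases h : M (v, false) = (v, true)
  · have hs : surgD M v = M := surg_closed hM h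
    rw [hs] at g2
    exact g2
  obtain ⟨g', o', b1, b2, b3, b4⟩ := g2
  refine ⟨fun y => g' y / y, o' - 1, LP_div b1, ?_, ?_, ?_⟩
  · intro N hN
    have h1 := FF_det (Fin N) vw l hM hRL h hv
    rw [b2 N hN, Fintype.card_fin] at h1
    have : (N : ℝ) ≠ 0 := by
      have : N ≠ 0 := by omega
      exact_mod_cast this
    simp only []
    rw [h1]
    field_simp
  · have h1 := FF_det Bool vw [] hM hRL h (by simp)
    rw [b3, Fintype.card_bool] at h1
    rw [zpow_sub₀ (by norm_num), zpow_one, h1]
    push_cast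
    field_simp
  · have h1 := TL_det (ne_of_gt ht) hx (fun e => vw e / dl t) l hM hNC h hv
    rw [b4] at h1
    have h2 : TLv t x (fun e => vw e / dl t) l M = (t ^ Fintype.card V * dl t ^ (-o') *
        g' (dl t ^ 2)) / dl t := by
      rw [h1]; field_simp
    rw [h2, neg_sub, sub_eq_add_neg, zpow_add₀ hd, zpow_one]
    field_simp

/-- membership of a vertex in the edges of a list -/
def vs (l : List (V × V)) (k : V) : Prop := ∃ e ∈ l, e.1 = k ∨ e.2 = k

theorem vs_cons (e : V × V) (l : List (V × V)) (k : V) :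
    vs (e :: l) k ↔ (e.1 = k ∨ e.2 = k) ∨ vs l k := by
  simp [vs]

/-- layout condition for an ordered list of edges -/
def Lay (x : V → ℕ) : List (V × V) → List (V × V) → Prop
  | _, [] => True
  | done, e :: l => x e.1 < x e.2 ∧
      (∀ k, x e.1 < x k → x k < x e.2 → ¬ (vs done k ∧ vs l k)) ∧ Lay x (e :: done) l

structure Inv (x : V → ℕ) (done l : List (V × V)) (M : V × Bool → V × Bool) : Prop where
  isM : IsMatch M
  rl : RL M
  nc : NC (spos x) M
  fix : ∀ k, (¬ vs done k ∨ ¬ vs l k) → M (k, false) = (k, true)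

theorem fix_true {M : V × Bool → V × Bool} (hM : IsMatch M) {k : V}
    (h : M (k, false) = (k, true)) : M (k, true) = (k, false) := by
  rw [← h, hM.inv]

theorem surgD_fix {M : V × Bool → V × Bool} (hM : IsMatch M) (hRL : RL M) {k v : V}
    (h : M (k, false) = (k, true)) : surgD M v (k, false) = (k, true) := by
  rw [surgD_false hRL]
  split_ifs with h1 h2
  · rw [h1]
  · exfalso
    have h3 : M (k, false) = (v, true) := by rw [h2, M_false hRL, pv_nx hM hRL]
    rw [h3] at h
    exact h1 (congrArg Prod.fst h).symm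
  · exact h

theorem surgD_self {M : V × Bool → V × Bool} (hRL : RL M) (v : V) :
    surgD M v (v, false) = (v, true) := by
  rw [surgD_false hRL]; simp

theorem surgE_fix {M : V × Bool → V × Bool} (hM : IsMatch M) (hRL : RL M) {k : V} {e : V × V}
    (h1 : k ≠ e.1) (h2 : k ≠ e.2) (h : M (k, false) = (k, true)) :
    surgE M e (k, false) = (k, true) := by
  rw [surgE_false hRL, if_neg h2]
  split_ifs with h3
  · exfalso
    have h4 : M (k, false) = (e.1, true) := by rw [h3, M_false hRL, pv_nx hM hRL]
    rw [h4] at h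
    exact h1 (congrArg Prod.fst h).symm
  · exact h

theorem fixD {x : V → ℕ} {M : V × Bool → V × Bool} (hx : Function.Injective x)
    (hM : IsMatch M) (hNC : NC (spos x) M) (v : V) :
    IsMatch (surgD M v) ∧ NC (spos x) (surgD M v) :=
  ⟨isMatch_surg hM (ne_det v), NC_surg (spos_inj hx) hM (lt_det x v) hNC (pres_det x M v)⟩

theorem not_vs {l : List (V × V)} {v : V} (h : ¬ vs l v) : ∀ e ∈ l, e.1 ≠ v ∧ e.2 ≠ v := by
  intro e he
  constructor
  · intro h1; exact h ⟨e, he, Or.inl h1⟩
  · intro h1; exact h ⟨e, he, Or.inr h1⟩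

/-- detaching the finished end points -/
theorem good_of_detached {t : ℝ} (ht : 0 < t) {x : V → ℕ} (hx : Function.Injective x)
    (vw : V × V → ℝ) (done l : List (V × V)) (e : V × V)
    (ih : ∀ M, Inv x (e :: done) l M → Good t x vw l M)
    {M : V × Bool → V × Bool} (hM : IsMatch M) (hRL : RL M) (hNC : NC (spos x) M)
    (hfix : ∀ k, k ≠ e.1 → k ≠ e.2 → (¬ vs done k ∨ ¬ vs l k) → M (k, false) = (k, true)) :
    Good t x vw l M := by
  classical
  by_cases h1 : vs l e.1
  · by_cases h2 : vs l e.2
    · apply ih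
      refine ⟨hM, hRL, hNC, ?_⟩
      rintro k (hk | hk)
      · rw [vs_cons] at hk
        push Not at hk
        exact hfix k (Ne.symm hk.1.1) (Ne.symm hk.1.2) (Or.inl hk.2)
      · have k1 : k ≠ e.1 := fun h => hk (h ▸ h1)
        have k2 : k ≠ e.2 := fun h => hk (h ▸ h2)
        exact hfix k k1 k2 (Or.inr hk)
    · apply good_det ht hx vw l hM hRL hNC (not_vs h2)
      apply ih
      obtain ⟨a1, a2⟩ := fixD hx hM hNC e.2
      refine ⟨a1, RL_surgD hRL _, a2, ?_⟩
      rintro k (hk | hk)
      · rw [vs_cons] at hk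
        push Not at hk
        exact surgD_fix hM hRL (hfix k (Ne.symm hk.1.1) (Ne.symm hk.1.2) (Or.inl hk.2))
      · have k1 : k ≠ e.1 := fun h => hk (h ▸ h1)
        by_cases k2 : k = e.2
        · rw [k2]; exact surgD_self hRL _
        · exact surgD_fix hM hRL (hfix k k1 k2 (Or.inr hk))
  · apply good_det ht hx vw l hM hRL hNC (not_vs h1)
    obtain ⟨a1, a2⟩ := fixD hx hM hNC e.1
    have hRL1 := RL_surgD (M := M) hRL e.1
    have hfix1 : ∀ k, k ≠ e.2 → (¬ vs (e :: done) k ∨ ¬ vs l k) →
        surgD M e.1 (k, false) = (k, true) := by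
      rintro k k2 (hk | hk)
      · rw [vs_cons] at hk
        push Not at hk
        exact surgD_fix hM hRL (hfix k (Ne.symm hk.1.1) (Ne.symm hk.1.2) (Or.inl hk.2))
      · by_cases k1 : k = e.1
        · rw [k1]; exact surgD_self hRL _
        · exact surgD_fix hM hRL (hfix k k1 k2 (Or.inr hk))
    by_cases h2 : vs l e.2
    · apply ih
      refine ⟨a1, hRL1, a2, ?_⟩
      rintro k hk
      by_cases k2 : k = e.2
      · exfalso
        subst k2
        rcases hk with hk | hk
        · apply hk; rw [vs_cons]; exact Or.inl (Or.inr rfl)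
        · exact hk h2
      · exact hfix1 k k2 hk
    · apply good_det ht hx vw l a1 hRL1 a2 (not_vs h2)
      apply ih
      obtain ⟨b1, b2⟩ := fixD hx a1 a2 e.2
      refine ⟨b1, RL_surgD hRL1 _, b2, ?_⟩
      rintro k hk
      by_cases k2 : k = e.2
      · rw [k2]; exact surgD_self hRL1 _
      · exact surgD_fix a1 hRL1 (hfix1 k k2 hk)

theorem main_ind {t : ℝ} (ht : 0 < t) {x : V → ℕ} (hx : Function.Injective x)
    (vw : V × V → ℝ) : ∀ (l done : List (V × V)) (_ : Lay x done l) (M : V × Bool → V × Bool)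
    (_ : Inv x done l M), Good t x vw l M := by
  intro l
  induction l with
  | nil =>
    intro done _ M hI
    have : M = M0 := by
      funext a
      obtain ⟨v, b⟩ := a
      have h1 := hI.fix v (Or.inr (by simp [vs]))
      cases b
      · simpa [M0] using h1
      · simpa [M0] using fix_true hI.isM h1
    rw [this]
    exact good_nil ht x vw
  | cons e l ih =>
    intro done hL M hI
    obtain ⟨h1, h2, h3⟩ := hL
    have ih' := ih (e :: done) h3
    have hP : Pres (spos x) M (e.1, true) (e.2, false) := by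
      rintro ⟨k, c⟩ q1 q2
      have p1 : x e.1 < x k := by
        simp only [spos, if_true, if_false, Bool.false_eq_true, add_zero] at q1
        split_ifs at q1 <;> omega
      have p2 : x k < x e.2 := by
        simp only [spos, if_true, if_false, Bool.false_eq_true, add_zero] at q2
        split_ifs at q2 <;> omega
      have k1 : k ≠ e.1 := fun h => by rw [h] at p1; exact lt_irrefl _ p1
      have k2 : k ≠ e.2 := fun h => by rw [h] at p2; exact lt_irrefl _ p2
      have h4 := h2 k p1 p2
      have h5 : M (k, false) = (k, true) := by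
        apply hI.fix
        by_contra hc
        push Not at hc
        apply h4
        refine ⟨hc.1, ?_⟩
        have := hc.2
        rw [vs_cons] at this
        rcases this with (h | h) | h
        · exact absurd h.symm k1
        · exact absurd h.symm k2
        · exact h
      have h6 := fix_true hI.isM h5
      cases c
      · rw [h5]; simp only [spos, if_true, if_false, Bool.false_eq_true, add_zero]; omega
      · rw [h6]; simp only [spos, if_true, if_false, Bool.false_eq_true, add_zero]; omega
    have hne : ((e.1, true) : V × Bool) ≠ (e.2, false) := by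
      intro h; simp at h
    apply good_edge ht hx vw l hI.isM hI.rl hI.nc h1 hP
    · apply good_of_detached ht hx vw done l e ih' hI.isM hI.rl hI.nc
      intro k k1 k2 hk
      apply hI.fix
      rcases hk with hk | hk
      · exact Or.inl hk
      · right
        rw [vs_cons]
        push Not
        exact ⟨⟨Ne.symm k1, Ne.symm k2⟩, hk⟩
    · apply good_of_detached ht hx vw done l e ih' (isMatch_surg hI.isM hne) (RL_surgE hI.rl e)
        (NC_surg (spos_inj hx) hI.isM (lt_edge h1) hI.nc hP)
      intro k k1 k2 hk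
      apply surgE_fix hI.isM hI.rl k1 k2
      apply hI.fix
      rcases hk with hk | hk
      · exact Or.inl hk
      · right
        rw [vs_cons]
        push Not
        exact ⟨⟨Ne.symm k1, Ne.symm k2⟩, hk⟩

/-- the starting matching satisfies the invariant -/
theorem inv_M0 (x : V → ℕ) (l : List (V × V)) : Inv x [] l M0 :=
  ⟨isMatch_M0, RL_M0, NC_M0 x, fun k _ => by simp [M0]⟩

/-- the Potts polynomial is the Temperley-Lieb state sum -/
theorem state_sum {t : ℝ} (ht : 0 < t) {x : V → ℕ} (hx : Function.Injective x)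
    (vw : V × V → ℝ) (l : List (V × V)) (hL : Lay x [] l) (p : ℝ[X])
    (hp : ∀ N : ℕ, 1 ≤ N → p.eval (N : ℝ) = ∑ σ : V → Fin N, wlist vw l σ) :
    p.eval ((dl t) ^ 2) * t ^ Fintype.card V =
      dl t ^ Fintype.card V * TLv t x (fun e => vw e / dl t) l M0 := by
  have hd : 0 < dl t := by unfold dl; positivity
  obtain ⟨g, o, ⟨h, r, hg⟩, a1, a2, a3⟩ := main_ind ht hx vw l [] hL M0 (inv_M0 x l)
  have ho : o = Fintype.card V := by
    rw [FF_nil_M0, Fintype.card_bool] at a2
    have : (2 : ℝ) ^ (Fintype.card V : ℤ) = 2 ^ o := by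
      rw [zpow_natCast, ← a2]; norm_num
    exact (zpow_right_injective₀ (by norm_num) (by norm_num) this).symm
  have hpoly : p * X ^ r = h := by
    apply Polynomial.eq_of_infinite_eval_eq
    apply Set.Infinite.mono (s := Set.range (fun n : ℕ => ((n : ℝ) + 1)))
    · rintro y ⟨n, rfl⟩
      simp only [Set.mem_setOf_eq, eval_mul, eval_pow, eval_X]
      have h1 := hp (n + 1) (by omega)
      have h2 := a1 (n + 1) (by omega)
      have h3 := hg ((n : ℝ) + 1) (by positivity)
      push_cast at h1 h2
      rw [h1, ← h3, ← h2]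
      congr 1
      unfold FF
      apply Finset.sum_congr rfl
      intro σ _
      have : PhiP M0 σ := fun v => by rw [nx_M0]
      simp [this]
    · apply Set.infinite_range_of_injective
      intro a b hab
      have : (a : ℝ) = b := by simpa using hab
      exact_mod_cast this
  have h4 : p.eval ((dl t) ^ 2) = g ((dl t) ^ 2) := by
    have h5 := hg ((dl t) ^ 2) (by positivity)
    rw [← hpoly] at h5
    simp only [eval_mul, eval_pow, eval_X] at h5
    have h6 : ((dl t ^ 2) ^ r) ≠ 0 := by positivity
    exact (mul_right_cancel₀ h6 h5).symm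
  rw [h4, a3, ho, zpow_neg, zpow_natCast]
  field_simp

end Helper35.BLB
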