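import Pool.Agent.Helper35.BLB.Induct

/-!
Positivity of the Temperley-Lieb state sum after a sign twist by colour classes.
-/

set_option autoImplicit false
set_option linter.unusedSectionVars false
set_option linter.unusedSimpArgs false

namespace Helper35.BLB

open Finset Polynomial

variable {V : Type} [Fintype V] [DecidableEq V]

/-- sign twist -/
noncomputable def tw (c : V → Bool) (s : V × Bool → Bool) : ℝ :=
  ∏ v, (if c v = true ∧ s (v, true) = s (v, false) then (-1 : ℝ) else 1)

theorem tw_swap (c : V → Bool) (s : V × Bool → Bool) {u w : V} (huw : u ≠ w)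
    (h : s (u, true) ≠ s (w, false)) :
    tw c (s ∘ Equiv.swap (u, true) (w, false)) =
      tw c s * ((if c u = true then (-1 : ℝ) else 1) * (if c w = true then (-1 : ℝ) else 1)) := by
  unfold tw
  rw [prod_two _ huw, prod_two (fun v => (if c v = true ∧ s (v, true) = s (v, false)
    then (-1 : ℝ) else 1)) huw]
  have hrest : ∏ v ∈ univ \ {u, w}, (if c v = true ∧
      (s ∘ Equiv.swap (u, true) (w, false)) (v, true) =
        (s ∘ Equiv.swap (u, true) (w, false)) (v, false) then (-1 : ℝ) else 1) =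
      ∏ v ∈ univ \ {u, w}, (if c v = true ∧ s (v, true) = s (v, false) then (-1 : ℝ) else 1) := by
    apply Finset.prod_congr rfl
    intro v hv
    simp only [mem_sdiff, mem_univ, true_and, mem_insert, mem_singleton, not_or] at hv
    rw [swap_ne s (a := (v, true)) (by simp [hv.1]) (by simp), swap_ne s (a := (v, false))
      (by simp) (by simp [hv.2])]
  rw [hrest]
  have e1 : (s ∘ Equiv.swap (u, true) (w, false)) (u, true) = s (w, false) := swap_j _ _ _
  have e2 : (s ∘ Equiv.swap (u, true) (w, false)) (w, false) = s (u, true) := swap_j' _ _ _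
  have e3 : (s ∘ Equiv.swap (u, true) (w, false)) (u, false) = s (u, false) :=
    swap_ne _ (by simp) (by simp [huw])
  have e4 : (s ∘ Equiv.swap (u, true) (w, false)) (w, true) = s (w, true) :=
    swap_ne _ (by simp [huw.symm]) (by simp)
  rw [e1, e2, e3, e4]
  generalize ∏ v ∈ univ \ {u, w}, (if c v = true ∧ s (v, true) = s (v, false)
    then (-1 : ℝ) else 1) = R
  revert h
  cases c u <;> cases c w <;> cases s (u, true) <;> cases s (u, false) <;>
    cases s (w, true) <;> cases s (w, false) <;> simp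

/-- the reference state -/
def ref : V × Bool → Bool := fun a => !a.2

theorem tw_ref (c : V → Bool) : tw c (ref : V × Bool → Bool) = 1 := by
  unfold tw ref
  simp

theorem wt_pos {t : ℝ} (ht : 0 < t) (b : Bool) : 0 < wt t b := by
  unfold wt
  cases b <;> simp [ht]

theorem wt_le {t : ℝ} (ht : 0 < t) (b : Bool) : wt t b ≤ dl t := by
  unfold wt dl
  have : 0 < t⁻¹ := by positivity
  cases b <;> simp <;> linarith

/-- admissible weights -/
def Adm (t : ℝ) (c : V → Bool) (y : ℝ) (u w : V) : Prop :=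
  -1 ≤ y * dl t ∧ (c u ≠ c w → y ≤ 0) ∧ (c u = c w → 0 ≤ y)

theorem step_nonneg {t : ℝ} (ht : 0 < t) (c : V → Bool) {u w : V} (huw : u ≠ w) {y : ℝ}
    (hy : Adm t c y u w) {f : (V × Bool → Bool) → ℝ} (hf : ∀ s, 0 ≤ tw c s * f s) :
    ∀ s, 0 ≤ tw c s * (f + y • Uop t (u, true) (w, false) f) s := by
  intro s
  obtain ⟨h1, h2, h3⟩ := hy
  rw [Pi.add_apply, Pi.smul_apply, smul_eq_mul]
  unfold Uop
  split_ifs with h
  · simpa using hf s
  · have hsw := tw_swap c s huw h
    have hf2 := hf (s ∘ Equiv.swap (u, true) (w, false))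
    have hf1 := hf s
    have hw := wt_pos ht (s (u, true))
    have hw2 := wt_le ht (s (u, true))
    have key : 0 ≤ 1 + y * wt t (s (u, true)) := by
      by_cases hy0 : 0 ≤ y
      · have := mul_nonneg hy0 hw.le
        linarith
      · push Not at hy0
        have := mul_le_mul_of_nonpos_left hw2 hy0.le
        linarith
    have e : tw c s * (f s + y * (wt t (s (u, true)) * f s +
        f (s ∘ Equiv.swap (u, true) (w, false)))) =
        (1 + y * wt t (s (u, true))) * (tw c s * f s) +
          y * (tw c s * f (s ∘ Equiv.swap (u, true) (w, false))) := by ring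
    rw [e]
    have p1 := mul_nonneg key hf1
    have p2 : 0 ≤ y * (tw c s * f (s ∘ Equiv.swap (u, true) (w, false))) := by
      by_cases hc : c u = c w
      · have hy0 := h3 hc
        rw [hsw, hc] at hf2
        have : tw c s * ((if c w = true then (-1 : ℝ) else 1) * (if c w = true then (-1 : ℝ)
            else 1)) = tw c s := by
          cases c w <;> simp
        rw [this] at hf2
        exact mul_nonneg hy0 hf2
      · have hy0 := h2 hc
        rw [hsw] at hf2
        have : tw c s * ((if c u = true then (-1 : ℝ) else 1) * (if c w = true then (-1 : ℝ)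
            else 1)) = - tw c s := by
          revert hc
          cases c u <;> cases c w <;> simp
        rw [this] at hf2
        have h5 : tw c s * f (s ∘ Equiv.swap (u, true) (w, false)) ≤ 0 := by linarith
        exact mul_nonneg_of_nonpos_of_nonpos hy0 h5
    linarith

theorem step_ref {t : ℝ} (ht : 0 < t) (c : V → Bool) {u w : V} (huw : u ≠ w) {y : ℝ}
    (hy : Adm t c y u w) {f : (V × Bool → Bool) → ℝ} (hf : ∀ s, 0 ≤ tw c s * f s) :
    t ^ 2 / (t ^ 2 + 1) * f ref ≤ (f + y • Uop t (u, true) (w, false) f) ref := by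
  obtain ⟨h1, h2, h3⟩ := hy
  have hr := hf ref
  rw [tw_ref, one_mul] at hr
  rw [Pi.add_apply, Pi.smul_apply, smul_eq_mul]
  unfold Uop
  have h : ref (u, true) ≠ ref (w, false) := by simp [ref]
  rw [if_neg h]
  have hsw := tw_swap c ref huw h
  have hf2 := hf (ref ∘ Equiv.swap (u, true) (w, false))
  rw [hsw, tw_ref] at hf2
  have hw : wt t (ref (u, true)) = t⁻¹ := by simp [wt, ref]
  rw [hw]
  have p2 : 0 ≤ y * f (ref ∘ Equiv.swap (u, true) (w, false)) := by
    by_cases hc : c u = c w
    · have hy0 := h3 hc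
      rw [hc] at hf2
      have : (1 : ℝ) * ((if c w = true then (-1 : ℝ) else 1) * (if c w = true then (-1 : ℝ)
          else 1)) = 1 := by
        cases c w <;> simp
      rw [this, one_mul] at hf2
      exact mul_nonneg hy0 hf2
    · have hy0 := h2 hc
      have : (1 : ℝ) * ((if c u = true then (-1 : ℝ) else 1) * (if c w = true then (-1 : ℝ)
          else 1)) = - 1 := by
        revert hc
        cases c u <;> cases c w <;> simp
      rw [this] at hf2
      exact mul_nonneg_of_nonpos_of_nonpos hy0 (by linarith)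
  have key : t ^ 2 / (t ^ 2 + 1) ≤ 1 + y * t⁻¹ := by
    have hd : 0 < dl t := by unfold dl; positivity
    have hyd : - (1 / dl t) ≤ y := by
      rw [neg_le_iff_add_nonneg, ← sub_nonneg]
      have : y + 1 / dl t - 0 = (y * dl t + 1) / dl t := by field_simp; ring
      rw [this]
      apply div_nonneg _ hd.le
      linarith
    have hti : 0 < t⁻¹ := by positivity
    have h6 := mul_le_mul_of_nonneg_right hyd hti.le
    have h7 : 1 + - (1 / dl t) * t⁻¹ = t ^ 2 / (t ^ 2 + 1) := by
      unfold dl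
      field_simp
      ring
    linarith
  have h8 := mul_le_mul_of_nonneg_right key hr
  have e : f ref + y * (t⁻¹ * f ref + f (ref ∘ Equiv.swap (u, true) (w, false))) =
      (1 + y * t⁻¹) * f ref + y * f (ref ∘ Equiv.swap (u, true) (w, false)) := by ring
  rw [e]
  linarith

theorem Wl_nonneg {t : ℝ} (ht : 0 < t) (c : V → Bool) (xw : V × V → ℝ) (l : List (V × V)) :
    (∀ e ∈ l, e.1 ≠ e.2 ∧ Adm t c (xw e) e.1 e.2) →
    ∀ f : (V × Bool → Bool) → ℝ, (∀ s, 0 ≤ tw c s * f s) →
      (∀ s, 0 ≤ tw c s * Wl t xw l f s) ∧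
        (t ^ 2 / (t ^ 2 + 1)) ^ l.length * f ref ≤ Wl t xw l f ref := by
  induction l with
  | nil => intro _ f hf; simp only [Wl, List.length_nil, pow_zero, one_mul]; exact ⟨hf, le_refl _⟩
  | cons e l ih =>
    intro hl f hf
    simp only [Wl]
    have he := hl e (by simp)
    have h1 := step_nonneg ht c he.1 he.2 hf
    have h2 := step_ref ht c he.1 he.2 hf
    obtain ⟨h3, h4⟩ := ih (fun e he => hl e (by simp [he])) _ h1
    refine ⟨h3, le_trans ?_ h4⟩
    rw [List.length_cons, pow_succ, mul_assoc]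
    apply mul_le_mul_of_nonneg_left h2
    positivity

theorem Psi_M0_nonneg {t : ℝ} (ht : 0 < t) (x : V → ℕ) (s : V × Bool → Bool) :
    0 ≤ Psi (spos x) t M0 s := by
  rw [Psi_M0]
  apply Finset.prod_nonneg
  intro v _
  split_ifs
  · exact le_refl _
  · exact ht.le
  · norm_num

theorem Psi_M0_tw {t : ℝ} (x : V → ℕ) (c : V → Bool) (s : V × Bool → Bool)
    (h : Psi (spos x) t M0 s ≠ 0) : tw c s = 1 := by
  rw [Psi_M0, Finset.prod_ne_zero_iff] at h
  unfold tw
  apply Finset.prod_eq_one
  intro v _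
  have := h v (mem_univ v)
  rw [if_neg]
  rintro ⟨_, h2⟩
  rw [if_pos h2] at this
  exact this rfl

theorem Psi_M0_ref (t : ℝ) (x : V → ℕ) : Psi (spos x) t M0 ref = t ^ Fintype.card V := by
  rw [Psi_M0]
  simp [ref]

theorem TLv_lower {t : ℝ} (ht : 0 < t) (x : V → ℕ) (c : V → Bool) (xw : V × V → ℝ)
    (l : List (V × V)) (hl : ∀ e ∈ l, e.1 ≠ e.2 ∧ Adm t c (xw e) e.1 e.2) :
    t ^ Fintype.card V * ((t ^ 2 / (t ^ 2 + 1)) ^ l.length * t ^ Fintype.card V) ≤
      TLv t x xw l M0 := by
  have h0 : ∀ s, 0 ≤ tw c s * Psi (spos x) t M0 s := by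
    intro s
    by_cases h : Psi (spos x) t M0 s = 0
    · rw [h, mul_zero]
    · rw [Psi_M0_tw x c s h, one_mul]
      exact Psi_M0_nonneg ht x s
  obtain ⟨h1, h2⟩ := Wl_nonneg ht c xw l hl _ h0
  unfold TLv dot
  have h3 : ∀ s ∈ (univ : Finset (V × Bool → Bool)),
      0 ≤ Psi (spos x) t M0 s * Wl t xw l (Psi (spos x) t M0) s := by
    intro s _
    by_cases h : Psi (spos x) t M0 s = 0
    · rw [h, zero_mul]
    · have := h1 s
      rw [Psi_M0_tw x c s h, one_mul] at this
      exact mul_nonneg (Psi_M0_nonneg ht x s) this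
  refine le_trans ?_ (Finset.single_le_sum h3 (mem_univ ref))
  rw [Psi_M0_ref]
  apply mul_le_mul_of_nonneg_left _ (by positivity)
  rw [Psi_M0_ref] at h2
  exact h2

/-- the lower bound for ordered edge lists -/
theorem list_lower {t : ℝ} (ht : 0 < t) {x : V → ℕ} (hx : Function.Injective x)
    (c : V → Bool) (vw : V × V → ℝ) (l : List (V × V)) (hL : Lay x [] l)
    (hl : ∀ e ∈ l, e.1 ≠ e.2 ∧ -1 ≤ vw e ∧ (c e.1 ≠ c e.2 → vw e ≤ 0) ∧
      (c e.1 = c e.2 → 0 ≤ vw e)) (p : ℝ[X])
    (hp : ∀ N : ℕ, 1 ≤ N → p.eval (N : ℝ) = ∑ σ : V → Fin N, wlist vw l σ) :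
    (t ^ 2 + 1) ^ Fintype.card V * (t ^ 2 / (t ^ 2 + 1)) ^ l.length ≤
      p.eval ((t + t⁻¹) ^ 2) := by
  have h1 := state_sum ht hx vw l hL p hp
  have hd : 0 < dl t := by unfold dl; positivity
  have h2 := TLv_lower ht x c (fun e => vw e / dl t) l (by
    intro e he
    obtain ⟨a1, a2, a3, a4⟩ := hl e he
    refine ⟨a1, ?_, ?_, ?_⟩
    · have : vw e / dl t * dl t = vw e := by field_simp
      rw [this]; exact a2
    · intro h; exact div_nonpos_of_nonpos_of_nonneg (a3 h) hd.le
    · intro h; exact div_nonneg (a4 h) hd.le)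
  have h3 := mul_le_mul_of_nonneg_left h2 (pow_pos hd (Fintype.card V)).le
  rw [← h1] at h3
  have htn : 0 < t ^ Fintype.card V := by positivity
  have h4 : dl t ^ Fintype.card V * (t ^ Fintype.card V * ((t ^ 2 / (t ^ 2 + 1)) ^ l.length *
      t ^ Fintype.card V)) = ((t ^ 2 + 1) ^ Fintype.card V *
        (t ^ 2 / (t ^ 2 + 1)) ^ l.length) * t ^ Fintype.card V := by
    have : (t ^ 2 + 1) = dl t * t := by unfold dl; field_simp
    rw [this, mul_pow]
    ring
  rw [h4] at h3
  exact le_of_mul_le_mul_right h3 htn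

end Helper35.BLB
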