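import Pool.Agent.Helper35.BLB.Defs
import Pool.Agent.Helper35.BLB.Positive

/-!
From visibility representations to ordered edge lists.
-/

set_option autoImplicit false
set_option linter.unusedSectionVars false
set_option linter.unusedSimpArgs false

namespace Helper35.BLB

open Finset Polynomial

open Classical in
/-- the `N`-colour Potts partition function with edge weights `v` -/
noncomputable def pottsSum {V : Type} [Fintype V] (G : SimpleGraph V) (v : Sym2 V → ℝ) (N : ℕ) :
    ℝ := ∑ σ : V → Fin N, ∏ e ∈ G.edgeSet.toFinset,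
      (1 + if (∀ a ∈ e, ∀ b ∈ e, σ a = σ b) then v e else 0)

/-- `p` is the Potts partition function of `G` with edge weights `v`, as a polynomial in the
number of colours -/
def IsPottsPolynomial {V : Type} [Fintype V] (G : SimpleGraph V) (v : Sym2 V → ℝ) (p : ℝ[X]) :
    Prop := ∀ N : ℕ, p.eval (N : ℝ) = pottsSum G v N

variable {V : Type} [Fintype V]

/-- rank of a vertex in the horizontal order -/
noncomputable def rk (x : V → ℝ) (v : V) : ℕ := by
  classical
  exact (univ.filter fun w => x w < x v).card

theorem rk_lt {x : V → ℝ} {v w : V} (h : x v < x w) : rk x v < rk x w := by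
  classical
  unfold rk
  apply Finset.card_lt_card
  rw [Finset.ssubset_iff_of_subset]
  · exact ⟨v, by simp [h], by simp⟩
  · intro u hu
    simp only [mem_filter, mem_univ, true_and] at hu ⊢
    linarith

theorem lt_of_rk {x : V → ℝ} {v w : V} (h : rk x v < rk x w) : x v < x w := by
  by_contra hc
  push Not at hc
  rcases lt_or_eq_of_le hc with h1 | h1
  · have := rk_lt h1; omega
  · have : rk x v = rk x w := by unfold rk; rw [h1]
    omega

theorem rk_inj {x : V → ℝ} (hx : Function.Injective x) : Function.Injective (rk x) := by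
  intro v w h
  by_contra hne
  have h1 : x v ≠ x w := fun e => hne (hx e)
  rcases lt_or_gt_of_ne h1 with h2 | h2
  · have := rk_lt h2; omega
  · have := rk_lt h2; omega

/-- orient an edge from left to right -/
noncomputable def orient (x : V → ℝ) (e : Sym2 V) : V × V := by
  classical
  exact if h : ∃ p : V × V, e = s(p.1, p.2) ∧ x p.1 < x p.2 then h.choose
    else (Quot.out e)

theorem orient_spec {G : SimpleGraph V} {x : V → ℝ} (hx : Function.Injective x) {e : Sym2 V}
    (he : e ∈ G.edgeSet) : e = s((orient x e).1, (orient x e).2) ∧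
      x (orient x e).1 < x (orient x e).2 := by
  have h : ∃ p : V × V, e = s(p.1, p.2) ∧ x p.1 < x p.2 := by
    induction e using Sym2.ind with
    | _ a b =>
      rw [SimpleGraph.mem_edgeSet] at he
      have hab : x a ≠ x b := fun e => he.ne (hx e)
      rcases lt_or_gt_of_ne hab with h | h
      · exact ⟨(a, b), rfl, h⟩
      · exact ⟨(b, a), Sym2.eq_swap, h⟩
  unfold orient
  rw [dif_pos h]
  exact h.choose_spec

theorem lay_of_sorted [DecidableEq V] {G : SimpleGraph V} (R : BarRep G) :
    ∀ (l done : List (Sym2 V)), (∀ e ∈ l, e ∈ G.edgeSet) → (∀ e ∈ done, e ∈ G.edgeSet) →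
      (∀ e ∈ done, ∀ e' ∈ l, R.y e ≤ R.y e') → l.Pairwise (fun e e' => R.y e ≤ R.y e') →
      Lay (rk R.x) (done.map (orient R.x)) (l.map (orient R.x)) := by
  intro l
  induction l with
  | nil => intro done _ _ _ _; simp [Lay]
  | cons e l ih =>
    intro done h1 h2 h3 h4
    rw [List.pairwise_cons] at h4
    rw [List.map_cons]
    have he := h1 e (by simp)
    obtain ⟨o1, o2⟩ := orient_spec R.x_inj he
    refine ⟨rk_lt o2, ?_, ?_⟩
    · rintro k k1 k2 ⟨⟨a, ha, hak⟩, ⟨b, hb, hbk⟩⟩
      have k1' := lt_of_rk k1
      have k2' := lt_of_rk k2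
      rw [List.mem_map] at ha hb
      obtain ⟨ea, hea, rfl⟩ := ha
      obtain ⟨eb, heb, rfl⟩ := hb
      have hadj : G.Adj (orient R.x e).1 (orient R.x e).2 := by
        rw [← SimpleGraph.mem_edgeSet, ← o1]; exact he
      have hcl := R.clear _ _ k hadj k1' k2'
      rw [← o1] at hcl
      have key : ∀ f : Sym2 V, f ∈ G.edgeSet → ((orient R.x f).1 = k ∨ (orient R.x f).2 = k) →
          R.lo k ≤ R.y f ∧ R.y f ≤ R.hi k := by
        intro f hf hk
        obtain ⟨p1, p2⟩ := orient_spec R.x_inj hf
        have hadj' : G.Adj (orient R.x f).1 (orient R.x f).2 := by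
          rw [← SimpleGraph.mem_edgeSet, ← p1]; exact hf
        rcases hk with hk | hk
        · have := R.touch _ _ hadj'
          rw [← p1, hk] at this
          exact this
        · have := R.touch _ _ hadj'.symm
          rw [Sym2.eq_swap, ← p1, hk] at this
          exact this
      have ka := key ea (h2 ea hea) hak
      have kb := key eb (h1 eb (by simp [heb])) hbk
      have q1 := h3 ea hea e (by simp)
      have q2 := h4.1 eb heb
      rcases hcl with hcl | hcl <;> linarith
    · have := ih (e :: done) (fun f hf => h1 f (by simp [hf])) (by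
        intro f hf
        rcases List.mem_cons.1 hf with rfl | hf
        · exact he
        · exact h2 f hf) (by
        intro f hf f' hf'
        rcases List.mem_cons.1 hf with rfl | hf
        · exact h4.1 f' hf'
        · exact h3 f hf f' (by simp [hf'])) h4.2
      rw [List.map_cons] at this
      exact this

open Classical in
/-- the edges sorted by height -/
noncomputable def sortedEdges {G : SimpleGraph V} (R : BarRep G) : List (Sym2 V) :=
  G.edgeSet.toFinset.toList.insertionSort (fun e e' => R.y e ≤ R.y e')

open Classical in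
theorem sortedEdges_perm {G : SimpleGraph V} (R : BarRep G) :
    (sortedEdges R).Perm G.edgeSet.toFinset.toList := List.perm_insertionSort _ _

open Classical in
theorem sortedEdges_mem {G : SimpleGraph V} (R : BarRep G) (e : Sym2 V) :
    e ∈ sortedEdges R ↔ e ∈ G.edgeSet := by
  rw [(sortedEdges_perm R).mem_iff]
  simp

open Classical in
theorem sortedEdges_pairwise {G : SimpleGraph V} (R : BarRep G) :
    (sortedEdges R).Pairwise (fun e e' => R.y e ≤ R.y e') := by
  have : Std.Total (fun e e' : Sym2 V => R.y e ≤ R.y e') := ⟨fun a b => le_total _ _⟩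
  have : IsTrans (Sym2 V) (fun e e' : Sym2 V => R.y e ≤ R.y e') :=
    ⟨fun a b c h1 h2 => le_trans h1 h2⟩
  exact List.pairwise_insertionSort _ _

/-- the general positivity theorem with explicit bound -/
theorem potts_bound {G : SimpleGraph V} (R : BarRep G) (S : Set V) (v : Sym2 V → ℝ)
    (hv : ∀ a b, G.Adj a b → -1 ≤ v s(a, b) ∧ ((a ∈ S ↔ b ∈ S) → 0 ≤ v s(a, b)) ∧
      (¬ (a ∈ S ↔ b ∈ S) → v s(a, b) ≤ 0)) (p : ℝ[X]) (hp : IsPottsPolynomial G v p)
    {t : ℝ} (ht : 0 < t) :
    (t ^ 2 + 1) ^ Fintype.card V * (t ^ 2 / (t ^ 2 + 1)) ^ (Nat.card G.edgeSet) ≤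
      p.eval ((t + t⁻¹) ^ 2) := by
  classical
  let vw : V × V → ℝ := fun e => v s(e.1, e.2)
  let L : List (V × V) := (sortedEdges R).map (orient R.x)
  have hL : Lay (rk R.x) [] L :=
    lay_of_sorted R (sortedEdges R) [] (fun e he => (sortedEdges_mem R e).1 he)
      (by simp) (by simp) (sortedEdges_pairwise R)
  have hlen : L.length = Nat.card G.edgeSet := by
    rw [List.length_map, (sortedEdges_perm R).length_eq, Finset.length_toList,
      Set.toFinset_card, Nat.card_eq_fintype_card]
  rw [← hlen]
  apply list_lower ht (rk_inj R.x_inj) (fun a => decide (a ∈ S)) vw L hL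
  · intro e he
    rw [List.mem_map] at he
    obtain ⟨f, hf, rfl⟩ := he
    rw [sortedEdges_mem] at hf
    obtain ⟨o1, o2⟩ := orient_spec R.x_inj hf
    have hadj : G.Adj (orient R.x f).1 (orient R.x f).2 := by
      rw [← SimpleGraph.mem_edgeSet, ← o1]; exact hf
    obtain ⟨h1, h2, h3⟩ := hv _ _ hadj
    refine ⟨hadj.ne, h1, ?_, ?_⟩
    · intro hne
      apply h3
      intro hiff
      apply hne
      exact decide_eq_decide.2 hiff
    · intro heq
      apply h2
      exact decide_eq_decide.1 heq
  · intro N _
    rw [hp N]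
    unfold pottsSum
    apply Finset.sum_congr rfl
    intro σ _
    unfold wlist
    rw [List.map_map, ← Finset.prod_map_toList, ← ((sortedEdges_perm R).map _).prod_eq]
    congr 1
    apply List.map_congr_left
    intro f hf
    rw [sortedEdges_mem] at hf
    obtain ⟨o1, o2⟩ := orient_spec R.x_inj hf
    simp only [Function.comp, vw]
    rw [← o1]
    have : (∀ a ∈ f, ∀ b ∈ f, σ a = σ b) ↔ σ (orient R.x f).1 = σ (orient R.x f).2 := by
      constructor
      · intro h
        exact h _ ⟨_, o1⟩ _ ⟨_, o1.trans Sym2.eq_swap⟩
      · intro h a ha b hb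
        rw [o1, Sym2.mem_iff] at ha hb
        rcases ha with rfl | rfl <;> rcases hb with rfl | rfl
        · rfl
        · exact h
        · exact h.symm
        · rfl
    by_cases hh : σ (orient R.x f).1 = σ (orient R.x f).2
    · rw [if_pos hh, if_pos (this.2 hh), mul_one]
    · rw [if_neg hh, if_neg (fun h => hh (this.1 h)), mul_zero]

/-- the chromatic polynomial is the Potts polynomial with all weights `-1` -/
theorem isPotts_of_chromatic {G : SimpleGraph V} {p : ℝ[X]} (hp : IsChromaticPolynomial G p) :
    IsPottsPolynomial G (fun _ => -1) p := by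
  classical
  intro N
  rw [hp N]
  unfold pottsSum
  have h1 : ∀ σ : V → Fin N, (∏ e ∈ G.edgeSet.toFinset,
      (1 + if (∀ a ∈ e, ∀ b ∈ e, σ a = σ b) then (-1 : ℝ) else 0)) =
      if (∀ a b, G.Adj a b → σ a ≠ σ b) then 1 else 0 := by
    intro σ
    split_ifs with h
    · apply Finset.prod_eq_one
      intro e he
      rw [Set.mem_toFinset] at he
      rw [if_neg, add_zero]
      intro hc
      induction e using Sym2.ind with
      | _ a b => exact h a b he (hc a (Sym2.mem_mk_left _ _) b (Sym2.mem_mk_right _ _))
    · push Not at h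
      obtain ⟨a, b, hab, hσ⟩ := h
      apply Finset.prod_eq_zero (i := s(a, b))
      · rw [Set.mem_toFinset]; exact hab
      · rw [if_pos]
        · norm_num
        · intro c hc d hd
          rw [Sym2.mem_iff] at hc hd
          rcases hc with rfl | rfl <;> rcases hd with rfl | rfl
          · rfl
          · exact hσ
          · exact hσ.symm
          · rfl
  simp only [h1]
  rw [Finset.sum_boole, Nat.card_eq_fintype_card]
  congr 1
  rw [← Fintype.card_subtype]
  apply Fintype.card_congr
  exact
    { toFun := fun c => ⟨c, fun a b h => c.valid h⟩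
      invFun := fun σ => SimpleGraph.Coloring.mk σ.1 (fun {a b} h => σ.2 a b h)
      left_inv := fun c => by ext; rfl
      right_inv := fun σ => by ext; rfl }

end Helper35.BLB
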