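import Mathlib

/-!
Non-crossing matchings of a finite set of strands on a line and the elementary surgery
connect `j` and `j'`, connect their former partners.
-/

set_option autoImplicit false
set_option linter.unusedSectionVars false
set_option linter.unusedSimpArgs false

namespace Helper35.BLB

variable {S : Type} [DecidableEq S]

/-- a fixed point free involution -/
structure IsMatch (M : S → S) : Prop where
  inv : ∀ a, M (M a) = a
  ne : ∀ a, M a ≠ a

/-- the matching `M` has no crossing with respect to the positions -/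
def NC (pos : S → ℕ) (M : S → S) : Prop :=
  ∀ a b, pos a < pos (M a) → pos a < pos b → pos b < pos (M a) →
    pos a < pos (M b) ∧ pos (M b) < pos (M a)

/-- `M` preserves the open interval between `j` and `j'` -/
def Pres (pos : S → ℕ) (M : S → S) (j j' : S) : Prop :=
  ∀ b, pos j < pos b → pos b < pos j' → pos j < pos (M b) ∧ pos (M b) < pos j'

/-- surgery -/
def surg (M : S → S) (j j' : S) : S → S := fun a =>
  if a = j then j' else if a = j' then j else if a = M j then M j' else if a = M j' then M j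
  else M a

theorem surg_closed {M : S → S} (hM : IsMatch M) {j j' : S} (h : M j = j') :
    surg M j j' = M := by
  have h' : M j' = j := by rw [← h, hM.inv]
  funext a
  unfold surg
  by_cases h1 : a = j
  · simp [h1, h]
  · by_cases h2 : a = j'
    · simp [h2, h', h1]
    · simp [h1, h2, h, h']

section

variable {M : S → S} {j j' : S}

theorem surg_j : surg M j j' j = j' := by simp [surg]

theorem surg_j' (hjj : j ≠ j') : surg M j j' j' = j := by
  have : j' ≠ j := fun h => hjj h.symm
  simp [surg, this]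

theorem ne1 (hM : IsMatch M) : M j ≠ j := hM.ne j

theorem Mj_ne_Mj' (hM : IsMatch M) (hjj : j ≠ j') : M j ≠ M j' := by
  intro h
  apply hjj
  rw [← hM.inv j, h, hM.inv]

theorem Mj'_ne_j (hM : IsMatch M) (h : M j ≠ j') : M j' ≠ j := by
  intro h2
  apply h
  rw [← h2, hM.inv]

theorem surg_p (hM : IsMatch M) (h : M j ≠ j') : surg M j j' (M j) = M j' := by
  have h1 := hM.ne j
  simp [surg, h1, h]

theorem surg_p' (hM : IsMatch M) (hjj : j ≠ j') (h : M j ≠ j') :
    surg M j j' (M j') = M j := by
  have h1 := Mj'_ne_j hM h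
  have h2 := hM.ne j'
  have h3 : M j' ≠ M j := (Mj_ne_Mj' hM hjj).symm
  simp [surg, h1, h2, h3]

theorem surg_old {a : S} (h1 : a ≠ j) (h2 : a ≠ j') (h3 : a ≠ M j) (h4 : a ≠ M j') :
    surg M j j' a = M a := by
  simp [surg, h1, h2, h3, h4]

theorem old_M (hM : IsMatch M) {a : S} (h1 : a ≠ j) (h2 : a ≠ j') (h3 : a ≠ M j)
    (h4 : a ≠ M j') : M a ≠ j ∧ M a ≠ j' ∧ M a ≠ M j ∧ M a ≠ M j' := by
  refine ⟨?_, ?_, ?_, ?_⟩
  · intro h; apply h3; rw [← h, hM.inv]
  · intro h; apply h4; rw [← h, hM.inv]
  · intro h; apply h1; rw [← hM.inv a, h, hM.inv]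
  · intro h; apply h2; rw [← hM.inv a, h, hM.inv]

theorem isMatch_surg (hM : IsMatch M) (hjj : j ≠ j') : IsMatch (surg M j j') := by
  by_cases h : M j = j'
  · rw [surg_closed hM h]; exact hM
  · have hj'j : j' ≠ j := fun h => hjj h.symm
    constructor
    · intro a
      by_cases h1 : a = j
      · subst h1; rw [surg_j, surg_j' hjj]
      by_cases h2 : a = j'
      · subst h2; rw [surg_j' hjj, surg_j]
      by_cases h3 : a = M j
      · subst h3; rw [surg_p hM h, surg_p' hM hjj h]
      by_cases h4 : a = M j'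
      · subst h4; rw [surg_p' hM hjj h, surg_p hM h]
      rw [surg_old h1 h2 h3 h4]
      obtain ⟨a1, a2, a3, a4⟩ := old_M hM h1 h2 h3 h4
      rw [surg_old a1 a2 a3 a4, hM.inv]
    · intro a
      by_cases h1 : a = j
      · subst h1; rw [surg_j]; exact hj'j
      by_cases h2 : a = j'
      · subst h2; rw [surg_j' hjj]; exact hjj
      by_cases h3 : a = M j
      · subst h3; rw [surg_p hM h]; exact (Mj_ne_Mj' hM hjj).symm
      by_cases h4 : a = M j'
      · subst h4; rw [surg_p' hM hjj h]; exact (Mj_ne_Mj' hM hjj)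
      rw [surg_old h1 h2 h3 h4]
      exact hM.ne a

end

section

variable {pos : S → ℕ} {M : S → S} {j j' : S}

/-- partners of the end points of a preserved interval lie outside of it -/
theorem out_p (hpos : Function.Injective pos) (hM : IsMatch M)
    (hP : Pres pos M j j') (h : M j ≠ j') :
    (pos (M j) < pos j ∨ pos j' < pos (M j)) ∧ (pos (M j') < pos j ∨ pos j' < pos (M j')) := by
  constructor
  · by_contra hc
    push Not at hc
    have e1 : pos (M j) ≠ pos j := fun e => hM.ne j (hpos e)
    have e2 : pos (M j) ≠ pos j' := fun e => h (hpos e)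
    have := hP (M j) (by omega) (by omega)
    rw [hM.inv] at this
    omega
  · by_contra hc
    push Not at hc
    have e1 : pos (M j') ≠ pos j := fun e => Mj'_ne_j hM h (hpos e)
    have e2 : pos (M j') ≠ pos j' := fun e => hM.ne j' (hpos e)
    have := hP (M j') (by omega) (by omega)
    rw [hM.inv] at this
    omega

/-- an old arc separates none of the four strands -/
theorem old_arc (hpos : Function.Injective pos) (hM : IsMatch M) (hlt : pos j < pos j')
    (hNC : NC pos M) (hP : Pres pos M j j') {c : S}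
    (h1 : c ≠ j) (h2 : c ≠ j') (h3 : c ≠ M j) (h4 : c ≠ M j') (hc : pos c < pos (M c)) :
    ((pos c < pos j ∧ pos j < pos (M c)) ↔ (pos c < pos j' ∧ pos j' < pos (M c))) ∧
    ((pos c < pos j ∧ pos j < pos (M c)) ↔ (pos c < pos (M j) ∧ pos (M j) < pos (M c))) ∧
    ((pos c < pos j' ∧ pos j' < pos (M c)) ↔ (pos c < pos (M j') ∧ pos (M j') < pos (M c))) := by
  obtain ⟨a1, a2, a3, a4⟩ := old_M hM h1 h2 h3 h4
  have d1 : pos c ≠ pos j := fun e => h1 (hpos e)
  have d2 : pos c ≠ pos j' := fun e => h2 (hpos e)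
  have d5 : pos (M c) ≠ pos j := fun e => a1 (hpos e)
  have d6 : pos (M c) ≠ pos j' := fun e => a2 (hpos e)
  have p1 := hP c
  have p2 := hP (M c)
  rw [hM.inv] at p2
  have n1 := hNC c j hc
  have n2 := hNC c j' hc
  have n3 := hNC c (M j) hc
  have n4 := hNC c (M j') hc
  rw [hM.inv] at n3 n4
  refine ⟨⟨fun h => ?_, fun h => ?_⟩, ⟨fun h => n1 h.1 h.2, fun h => n3 h.1 h.2⟩,
    ⟨fun h => n2 h.1 h.2, fun h => n4 h.1 h.2⟩⟩
  · omega
  · omega

theorem NC_surg (hpos : Function.Injective pos) (hM : IsMatch M) (hlt : pos j < pos j')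
    (hNC : NC pos M) (hP : Pres pos M j j') : NC pos (surg M j j') := by
  have hjj : j ≠ j' := fun e => by rw [e] at hlt; exact lt_irrefl _ hlt
  by_cases h : M j = j'
  · rw [surg_closed hM h]; exact hNC
  obtain ⟨o1, o2⟩ := out_p hpos hM hP h
  intro a b
  by_cases a1 : a = j
  · subst a1
    rw [surg_j]
    intro _ q2 q3
    have b1 : b ≠ a := fun e => by rw [e] at q2; exact lt_irrefl _ q2
    have b2 : b ≠ j' := fun e => by rw [e] at q3; exact lt_irrefl _ q3
    have b3 : b ≠ M a := fun e => by rw [e] at q2 q3; omega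
    have b4 : b ≠ M j' := fun e => by rw [e] at q2 q3; omega
    rw [surg_old b1 b2 b3 b4]
    exact hP b q2 q3
  by_cases a2 : a = j'
  · subst a2
    rw [surg_j' hjj]
    intro q1; omega
  by_cases a3 : a = M j
  · subst a3
    rw [surg_p hM h]
    intro q1 q2 q3
    by_cases b1 : b = j
    · subst b1; rw [surg_j]; omega
    by_cases b2 : b = j'
    · subst b2; rw [surg_j' hjj]; omega
    by_cases b3 : b = M j
    · subst b3; omega
    by_cases b4 : b = M j'
    · subst b4; omega
    rw [surg_old b1 b2 b3 b4]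
    obtain ⟨c1, c2, c3, c4⟩ := old_M hM b1 b2 b3 b4
    have e3 : pos (M b) ≠ pos (M j) := fun e => c3 (hpos e)
    have e4 : pos (M b) ≠ pos (M j') := fun e => c4 (hpos e)
    have e5 : pos (M b) ≠ pos b := fun e => hM.ne b (hpos e)
    rcases lt_or_gt_of_ne e5 with hh | hh
    · have hh' : pos (M b) < pos (M (M b)) := by rw [hM.inv]; exact hh
      have := old_arc hpos hM hlt hNC hP c1 c2 c3 c4 hh'
      rw [hM.inv] at this
      omega
    · have := old_arc hpos hM hlt hNC hP b1 b2 b3 b4 hh
      omega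
  by_cases a4 : a = M j'
  · subst a4
    rw [surg_p' hM hjj h]
    intro q1 q2 q3
    by_cases b1 : b = j
    · subst b1; rw [surg_j]; omega
    by_cases b2 : b = j'
    · subst b2; rw [surg_j' hjj]; omega
    by_cases b3 : b = M j
    · subst b3; omega
    by_cases b4 : b = M j'
    · subst b4; omega
    rw [surg_old b1 b2 b3 b4]
    obtain ⟨c1, c2, c3, c4⟩ := old_M hM b1 b2 b3 b4
    have e3 : pos (M b) ≠ pos (M j) := fun e => c3 (hpos e)
    have e4 : pos (M b) ≠ pos (M j') := fun e => c4 (hpos e)
    have e5 : pos (M b) ≠ pos b := fun e => hM.ne b (hpos e)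
    rcases lt_or_gt_of_ne e5 with hh | hh
    · have hh' : pos (M b) < pos (M (M b)) := by rw [hM.inv]; exact hh
      have := old_arc hpos hM hlt hNC hP c1 c2 c3 c4 hh'
      rw [hM.inv] at this
      omega
    · have := old_arc hpos hM hlt hNC hP b1 b2 b3 b4 hh
      omega
  rw [surg_old a1 a2 a3 a4]
  intro q1 q2 q3
  have oa := old_arc hpos hM hlt hNC hP a1 a2 a3 a4 q1
  by_cases b1 : b = j
  · subst b1; rw [surg_j]; omega
  by_cases b2 : b = j'
  · subst b2; rw [surg_j' hjj]; omega
  by_cases b3 : b = M j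
  · subst b3; rw [surg_p hM h]; omega
  by_cases b4 : b = M j'
  · subst b4; rw [surg_p' hM hjj h]; omega
  rw [surg_old b1 b2 b3 b4]
  exact hNC a b q1 q2 q3

end

end Helper35.BLB
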