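import Pool.Agent.Helper35.BLB.Grid

/-!
# The Birkhoff-Lewis conjecture for bipartite planar graphs

Let `G` be a bipartite graph with a visibility representation, that is, a bipartite planar graph.
Then its chromatic polynomial is positive at every real `q ≥ 4`, and with `t + 1 / t = √q`

`P(G, q) ≥ (t ^ 2 + 1) ^ |V| (t ^ 2 / (t ^ 2 + 1)) ^ |E|`.

Proof.  Replace every vertex by a left and a right strand.  The chromatic polynomial is the value
`t ^ (-|V|) δ ^ |V| ⟨Ψ, ∏ (1 - U_e / δ) Ψ⟩`, `δ = t + 1 / t = √q`, in the spin representation of the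
Temperley-Lieb algebra, where `U_e` acts on the right strand of the left end and the left strand of
the right end of the edge `e` (files `Match`, `TL`, `Potts`, `Induct`).  For real `t > 0` all matrix
entries of `1 - U_e / δ` are nonnegative, except `-1 / δ` which flips one strand of each end of `e`.
Multiplying the basis vectors by `∏ (- s_L s_R)` over the vertices of one colour class makes all
entries nonnegative (file `Positive`).
-/

set_option autoImplicit false

namespace Helper35.BLB.BipartitePlanar

open Helper35.BLB

theorem result (V : Type) [Fintype V] (G : SimpleGraph V) (hplanar : Nonempty (BarRep G))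
    (hbip : G.Colorable 2) (p : Polynomial ℝ) (hp : IsChromaticPolynomial G p)
    (q : ℝ) (hq : 4 ≤ q) :
    0 < p.eval q ∧ ∀ t : ℝ, 0 < t → (t + t⁻¹) ^ 2 = q →
      (t ^ 2 + 1) ^ Fintype.card V * (t ^ 2 / (t ^ 2 + 1)) ^ (Nat.card G.edgeSet) ≤ p.eval q := by
  obtain ⟨R⟩ := hplanar
  obtain ⟨C⟩ := hbip
  have hbound : ∀ t : ℝ, 0 < t → (t + t⁻¹) ^ 2 = q →
      (t ^ 2 + 1) ^ Fintype.card V * (t ^ 2 / (t ^ 2 + 1)) ^ (Nat.card G.edgeSet) ≤
        p.eval q := by
    intro t ht hq
    rw [← hq]
    apply potts_bound R {a | C a = 0} (fun _ => -1) _ p (isPotts_of_chromatic hp) ht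
    intro a b hab
    refine ⟨le_refl _, ?_, ?_⟩
    · intro h
      exfalso
      have h1 := C.valid hab
      have h2 : (C a = 0 ↔ C b = 0) := h
      apply h1
      generalize C a = i at *
      generalize C b = j at *
      fin_cases i <;> fin_cases j <;> simp_all
    · intro _
      norm_num
  refine ⟨?_, hbound⟩
  obtain ⟨t, ht, htq⟩ := exists_t hq
  exact lt_of_lt_of_le (by positivity) (hbound t ht htq)

end Helper35.BLB.BipartitePlanar
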