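import Pool.Agent.Helper35.BLB.Match

/-!
The spin representation of the Temperley-Lieb generators acting on matching vectors.
-/

set_option autoImplicit false
set_option linter.unusedSectionVars false
set_option linter.unusedSimpArgs false

namespace Helper35.BLB

open Finset

variable {S : Type} [Fintype S] [DecidableEq S]

/-- loop value -/
noncomputable def dl (t : ℝ) : ℝ := t + t⁻¹

noncomputable def wt (t : ℝ) (b : Bool) : ℝ := if b then t else t⁻¹

noncomputable def fac (pos : S → ℕ) (t : ℝ) (M : S → S) (s : S → Bool) (a : S) : ℝ :=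
  if s (M a) = s a then 0 else if pos a < pos (M a) ∧ s a = true then t else 1

/-- the vector of a matching -/
noncomputable def Psi (pos : S → ℕ) (t : ℝ) (M : S → S) (s : S → Bool) : ℝ :=
  ∏ a, fac pos t M s a

/-- the generator on the strands `j`, `j'` -/
noncomputable def Uop (t : ℝ) (j j' : S) (f : (S → Bool) → ℝ) : (S → Bool) → ℝ := fun s =>
  if s j = s j' then 0 else wt t (s j) * f s + f (s ∘ Equiv.swap j j')

theorem swap_j (s : S → Bool) (j j' : S) : (s ∘ Equiv.swap j j') j = s j' := by
  simp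

theorem swap_j' (s : S → Bool) (j j' : S) : (s ∘ Equiv.swap j j') j' = s j := by
  simp

theorem swap_ne (s : S → Bool) {j j' a : S} (h1 : a ≠ j) (h2 : a ≠ j') :
    (s ∘ Equiv.swap j j') a = s a := by
  simp [Equiv.swap_apply_of_ne_of_ne h1 h2]

theorem prod_two (f : S → ℝ) {j j' : S} (h : j ≠ j') :
    ∏ a, f a = f j * f j' * ∏ a ∈ univ \ {j, j'}, f a := by
  rw [← Finset.prod_sdiff (Finset.subset_univ ({j, j'} : Finset S)),
    Finset.prod_pair h, mul_comm]

theorem prod_four (f : S → ℝ) {j j' p p' : S} (h1 : j ≠ j') (h2 : j ≠ p) (h3 : j ≠ p')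
    (h4 : j' ≠ p) (h5 : j' ≠ p') (h6 : p ≠ p') :
    ∏ a, f a = f j * f j' * f p * f p' * ∏ a ∈ univ \ {j, j', p, p'}, f a := by
  rw [← Finset.prod_sdiff (Finset.subset_univ ({j, j', p, p'} : Finset S)), mul_comm]
  rw [Finset.prod_insert, Finset.prod_insert, Finset.prod_pair h6]
  · ring
  · simp [h4, h5]
  · simp [h1, h2, h3]

theorem U_closed (pos : S → ℕ) {t : ℝ} (ht : t ≠ 0) {M : S → S} (hM : IsMatch M) {j j' : S}
    (hlt : pos j < pos j') (h : M j = j') :
    Uop t j j' (Psi pos t M) = fun s => dl t * Psi pos t M s := by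
  have hjj : j ≠ j' := fun e => by rw [e] at hlt; exact lt_irrefl _ hlt
  have h' : M j' = j := by rw [← h, hM.inv]
  funext s
  have key : ∀ s : S → Bool, Psi pos t M s = fac pos t M s j * fac pos t M s j' *
      ∏ a ∈ univ \ {j, j'}, fac pos t M s a := fun s => prod_two _ hjj
  have hrest : ∏ a ∈ univ \ {j, j'}, fac pos t M (s ∘ Equiv.swap j j') a
      = ∏ a ∈ univ \ {j, j'}, fac pos t M s a := by
    apply Finset.prod_congr rfl
    intro a ha
    simp only [mem_sdiff, mem_univ, true_and, mem_insert, mem_singleton, not_or] at ha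
    have m1 : M a ≠ j := fun e => ha.2 (by rw [← h, ← e, hM.inv])
    have m2 : M a ≠ j' := fun e => ha.1 (by rw [← h', ← e, hM.inv])
    unfold fac
    rw [swap_ne s ha.1 ha.2, swap_ne s m1 m2]
  unfold Uop
  rw [key (s ∘ Equiv.swap j j'), key s, hrest]
  have hnlt : ¬ pos j' < pos j := by omega
  have f1 : ∀ s : S → Bool, fac pos t M s j = if s j' = s j then 0 else if s j = true then t else 1 := by
    intro s; unfold fac; rw [h]; simp [hlt]
  have f2 : ∀ s : S → Bool, fac pos t M s j' = if s j = s j' then 0 else 1 := by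
    intro s; unfold fac; rw [h']; simp [hnlt]
  rw [f1, f2, f1, f2, swap_j, swap_j']
  unfold wt dl
  generalize ∏ a ∈ univ \ {j, j'}, fac pos t M s a = R
  cases h1 : s j <;> cases h2 : s j' <;> simp <;> field_simp <;> ring

theorem U_open (pos : S → ℕ) (hpos : Function.Injective pos) {t : ℝ} (ht : t ≠ 0) {M : S → S}
    (hM : IsMatch M) (hNC : NC pos M) {j j' : S}
    (hlt : pos j < pos j') (hP : Pres pos M j j') (h : M j ≠ j') :
    Uop t j j' (Psi pos t M) = Psi pos t (surg M j j') := by
  have hjj : j ≠ j' := fun e => by rw [e] at hlt; exact lt_irrefl _ hlt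
  obtain ⟨p, hp⟩ : ∃ p, p = M j := ⟨_, rfl⟩
  obtain ⟨p', hp'⟩ : ∃ p, p = M j' := ⟨_, rfl⟩
  have n1 : j ≠ p := fun e => hM.ne j (by rw [← hp, ← e])
  have n2 : j ≠ p' := fun e => Mj'_ne_j hM h (by rw [← hp', ← e])
  have n3 : j' ≠ p := fun e => h (by rw [← hp, ← e])
  have n4 : j' ≠ p' := fun e => hM.ne j' (by rw [← hp', ← e])
  have n5 : p ≠ p' := fun e => Mj_ne_Mj' hM hjj (by rw [← hp, ← hp', e])
  have Mp : M p = j := by rw [hp, hM.inv]
  have Mp' : M p' = j' := by rw [hp', hM.inv]
  obtain ⟨o1, o2⟩ := out_p hpos hM hP h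
  rw [← hp] at o1
  rw [← hp'] at o2
  have dpp : pos p ≠ pos p' := fun e => n5 (hpos e)
  have nc1 := hNC j j'
  have nc2 := hNC j' j
  have nc3 := hNC p p'
  have nc4 := hNC p' p
  have nc5 := hNC j p'
  have nc6 := hNC j' p
  have nc7 := hNC p j'
  have nc8 := hNC p' j
  rw [Mp, Mp'] at nc3 nc4
  rw [Mp'] at nc5
  rw [Mp] at nc6 nc7
  rw [Mp'] at nc8
  rw [← hp, ← hp'] at nc1 nc2
  rw [← hp] at nc5 nc8
  rw [← hp'] at nc6 nc7
  set M' := surg M j j' with hM'
  have sj : M' j = j' := surg_j
  have sj' : M' j' = j := surg_j' hjj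
  have sp : M' p = p' := by rw [hp, hp']; exact surg_p hM h
  have sp' : M' p' = p := by rw [hp, hp']; exact surg_p' hM hjj h
  funext s
  have key : ∀ s : S → Bool, Psi pos t M s = fac pos t M s j * fac pos t M s j' *
      fac pos t M s p * fac pos t M s p' *
      ∏ a ∈ univ \ {j, j', p, p'}, fac pos t M s a := fun s => prod_four _ hjj n1 n2 n3 n4 n5
  have key' : Psi pos t M' s = fac pos t M' s j * fac pos t M' s j' *
      fac pos t M' s p * fac pos t M' s p' *
      ∏ a ∈ univ \ {j, j', p, p'}, fac pos t M' s a := prod_four _ hjj n1 n2 n3 n4 n5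
  have hrest : ∏ a ∈ univ \ {j, j', p, p'}, fac pos t M (s ∘ Equiv.swap j j') a
      = ∏ a ∈ univ \ {j, j', p, p'}, fac pos t M s a := by
    apply Finset.prod_congr rfl
    intro a ha
    simp only [mem_sdiff, mem_univ, true_and, mem_insert, mem_singleton, not_or] at ha
    obtain ⟨h1, h2, h3, h4⟩ := ha
    have := old_M hM h1 h2 (hp ▸ h3) (hp' ▸ h4)
    unfold fac
    rw [swap_ne s h1 h2, swap_ne s this.1 this.2.1]
  have hrest' : ∏ a ∈ univ \ {j, j', p, p'}, fac pos t M' s a
      = ∏ a ∈ univ \ {j, j', p, p'}, fac pos t M s a := by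
    apply Finset.prod_congr rfl
    intro a ha
    simp only [mem_sdiff, mem_univ, true_and, mem_insert, mem_singleton, not_or] at ha
    obtain ⟨h1, h2, h3, h4⟩ := ha
    have : M' a = M a := surg_old h1 h2 (hp ▸ h3) (hp' ▸ h4)
    unfold fac
    rw [this]
  unfold Uop
  rw [key (s ∘ Equiv.swap j j'), key s, hrest, key', hrest']
  have hnlt : ¬ pos j' < pos j := by omega
  have f1 : ∀ s : S → Bool, fac pos t M s j = if s p = s j then 0 else if pos j < pos p ∧ s j = true then t else 1 := by
    intro s; unfold fac; rw [← hp]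
  have f2 : ∀ s : S → Bool, fac pos t M s j' = if s p' = s j' then 0 else if pos j' < pos p' ∧ s j' = true then t else 1 := by
    intro s; unfold fac; rw [← hp']
  have f3 : ∀ s : S → Bool, fac pos t M s p = if s j = s p then 0 else if pos p < pos j ∧ s p = true then t else 1 := by
    intro s; unfold fac; rw [Mp]
  have f4 : ∀ s : S → Bool, fac pos t M s p' = if s j' = s p' then 0 else if pos p' < pos j' ∧ s p' = true then t else 1 := by
    intro s; unfold fac; rw [Mp']
  have g1 : fac pos t M' s j = if s j' = s j then 0 else if s j = true then t else 1 := by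
    unfold fac; rw [sj]; simp [hlt]
  have g2 : fac pos t M' s j' = if s j = s j' then 0 else 1 := by
    unfold fac; rw [sj']; simp [hnlt]
  have g3 : fac pos t M' s p = if s p' = s p then 0 else if pos p < pos p' ∧ s p = true then t else 1 := by
    unfold fac; rw [sp]
  have g4 : fac pos t M' s p' = if s p = s p' then 0 else if pos p' < pos p ∧ s p' = true then t else 1 := by
    unfold fac; rw [sp']
  rw [f1, f2, f3, f4, f1, f2, f3, f4, g1, g2, g3, g4, swap_j, swap_j', swap_ne s n1.symm n3.symm,
    swap_ne s n2.symm n4.symm]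
  unfold wt
  generalize ∏ a ∈ univ \ {j, j', p, p'}, fac pos t M s a = R
  rcases o1 with o1 | o1 <;> rcases o2 with o2 | o2
  · have q1 : pos p' < pos p := by omega
    have r1 : ¬ pos j < pos p := by omega
    have r2 : ¬ pos j' < pos p' := by omega
    have r3 : pos p < pos j := by omega
    have r4 : pos p' < pos j' := by omega
    have r5 : ¬ pos p < pos p' := by omega
    simp only [q1, r1, r2, r3, r4, r5, true_and, false_and, if_false]
    cases h1 : s j <;> cases h2 : s j' <;> cases h3 : s p <;> cases h4 : s p' <;> simp <;>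
      field_simp
  · have q1 : pos p < pos p' := by omega
    have r1 : ¬ pos j < pos p := by omega
    have r2 : pos j' < pos p' := by omega
    have r3 : pos p < pos j := by omega
    have r4 : ¬ pos p' < pos j' := by omega
    have r5 : ¬ pos p' < pos p := by omega
    simp only [q1, r1, r2, r3, r4, r5, true_and, false_and, if_false]
    cases h1 : s j <;> cases h2 : s j' <;> cases h3 : s p <;> cases h4 : s p' <;> simp <;>
      field_simp
  · exfalso; omega
  · have q1 : pos p' < pos p := by omega
    have r1 : pos j < pos p := by omega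
    have r2 : pos j' < pos p' := by omega
    have r3 : ¬ pos p < pos j := by omega
    have r4 : ¬ pos p' < pos j' := by omega
    have r5 : ¬ pos p < pos p' := by omega
    simp only [q1, r1, r2, r3, r4, r5, true_and, false_and, if_false]
    cases h1 : s j <;> cases h2 : s j' <;> cases h3 : s p <;> cases h4 : s p' <;> simp <;>
      field_simp

/-- bilinear form -/
noncomputable def dot (f g : (S → Bool) → ℝ) : ℝ := ∑ s, f s * g s

theorem Uop_add (t : ℝ) (j j' : S) (f g : (S → Bool) → ℝ) :
    Uop t j j' (f + g) = Uop t j j' f + Uop t j j' g := by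
  funext s
  simp only [Uop, Pi.add_apply]
  split_ifs <;> ring

theorem Uop_smul (t : ℝ) (j j' : S) (c : ℝ) (f : (S → Bool) → ℝ) :
    Uop t j j' (c • f) = c • Uop t j j' f := by
  funext s
  simp only [Uop, Pi.smul_apply, smul_eq_mul]
  split_ifs <;> ring

theorem dot_Uop (t : ℝ) (j j' : S) (f g : (S → Bool) → ℝ) :
    dot f (Uop t j j' g) = dot (Uop t j j' f) g := by
  have e1 : dot f (Uop t j j' g) = (∑ s : S → Bool, if s j = s j' then 0 else
      wt t (s j) * f s * g s) + ∑ s : S → Bool, (if s j = s j' then 0 else f s *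
        g (s ∘ Equiv.swap j j')) := by
    unfold dot Uop
    rw [← Finset.sum_add_distrib]
    apply Finset.sum_congr rfl
    intro s _
    split_ifs <;> ring
  have e2 : dot (Uop t j j' f) g = (∑ s : S → Bool, if s j = s j' then 0 else
      wt t (s j) * f s * g s) + ∑ s : S → Bool, (if s j = s j' then 0 else
        f (s ∘ Equiv.swap j j') * g s) := by
    unfold dot Uop
    rw [← Finset.sum_add_distrib]
    apply Finset.sum_congr rfl
    intro s _
    split_ifs <;> ring
  rw [e1, e2]
  congr 1
  let E : (S → Bool) ≃ (S → Bool) := (Equiv.swap j j').arrowCongr (Equiv.refl Bool)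
  have hE : ∀ s : S → Bool, E s = s ∘ Equiv.swap j j' := by
    intro s; funext a; simp [E, Equiv.arrowCongr]
  rw [← Equiv.sum_comp E]
  apply Finset.sum_congr rfl
  intro s _
  rw [hE]
  have : (s ∘ Equiv.swap j j') ∘ Equiv.swap j j' = s := by
    funext a; simp
  rw [this, swap_j, swap_j']
  by_cases h : s j = s j'
  · simp [h]
  · have h' : ¬ s j' = s j := fun e => h e.symm
    simp [h, h']

theorem Uop_comm (t : ℝ) {a b c d : S} (h1 : a ≠ c) (h2 : a ≠ d) (h3 : b ≠ c) (h4 : b ≠ d)
    (f : (S → Bool) → ℝ) :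
    Uop t a b (Uop t c d f) = Uop t c d (Uop t a b f) := by
  funext s
  have e : (s ∘ Equiv.swap a b) ∘ Equiv.swap c d = (s ∘ Equiv.swap c d) ∘ Equiv.swap a b := by
    funext x
    simp only [Function.comp]
    congr 1
    by_cases x1 : x = a
    · subst x1
      rw [Equiv.swap_apply_of_ne_of_ne h1 h2, Equiv.swap_apply_left,
        Equiv.swap_apply_of_ne_of_ne h3 h4]
    by_cases x2 : x = b
    · subst x2
      rw [Equiv.swap_apply_of_ne_of_ne h3 h4, Equiv.swap_apply_right,
        Equiv.swap_apply_of_ne_of_ne h1 h2]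
    by_cases x3 : x = c
    · subst x3
      rw [Equiv.swap_apply_left, Equiv.swap_apply_of_ne_of_ne x1 x2, Equiv.swap_apply_left,
        Equiv.swap_apply_of_ne_of_ne h2.symm h4.symm]
    by_cases x4 : x = d
    · subst x4
      rw [Equiv.swap_apply_right, Equiv.swap_apply_of_ne_of_ne x1 x2, Equiv.swap_apply_right,
        Equiv.swap_apply_of_ne_of_ne h1.symm h3.symm]
    rw [Equiv.swap_apply_of_ne_of_ne x1 x2, Equiv.swap_apply_of_ne_of_ne x3 x4,
      Equiv.swap_apply_of_ne_of_ne x1 x2]
  unfold Uop
  rw [e, swap_ne s h1.symm h3.symm, swap_ne s h2.symm h4.symm, swap_ne s h1 h2, swap_ne s h3 h4]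
  split_ifs <;> ring

end Helper35.BLB
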